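import Mathlib

set_option autoImplicit false

/-! Averages over finite product spaces. -/

namespace Pool.Agent.Q220.CE

open Finset

/-- The average of a function on a finite type. -/
noncomputable def Ex {Ω : Type} [Fintype Ω] (f : Ω → ℝ) : ℝ := (∑ ω, f ω) / Fintype.card Ω

section basic

variable {Ω : Type} [Fintype Ω]

theorem Ex_mono {f g : Ω → ℝ} (h : ∀ ω, f ω ≤ g ω) : Ex f ≤ Ex g := by
  unfold Ex
  exact div_le_div_of_nonneg_right (Finset.sum_le_sum fun ω _ => h ω) (Nat.cast_nonneg _)

theorem Ex_nonneg {f : Ω → ℝ} (h : ∀ ω, 0 ≤ f ω) : 0 ≤ Ex f := by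
  unfold Ex
  exact div_nonneg (Finset.sum_nonneg fun ω _ => h ω) (Nat.cast_nonneg _)

theorem Ex_sum {ι : Type} (s : Finset ι) (f : ι → Ω → ℝ) :
    Ex (fun ω => ∑ i ∈ s, f i ω) = ∑ i ∈ s, Ex (f i) := by
  unfold Ex
  rw [Finset.sum_comm, Finset.sum_div]

theorem Ex_add (f g : Ω → ℝ) : Ex (fun ω => f ω + g ω) = Ex f + Ex g := by
  unfold Ex
  rw [Finset.sum_add_distrib, add_div]

theorem Ex_mul_left (c : ℝ) (f : Ω → ℝ) : Ex (fun ω => c * f ω) = c * Ex f := by
  unfold Ex
  rw [← Finset.mul_sum, mul_div_assoc]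

theorem Ex_const [Nonempty Ω] (c : ℝ) : Ex (fun _ : Ω => c) = c := by
  unfold Ex
  rw [Finset.sum_const, Finset.card_univ, nsmul_eq_mul]
  have : (Fintype.card Ω : ℝ) ≠ 0 := by
    exact_mod_cast Fintype.card_ne_zero
  field_simp

theorem Ex_eq_card (s : Finset Ω) [DecidablePred (· ∈ s)] :
    Ex (fun ω => if ω ∈ s then (1 : ℝ) else 0) = (s.card : ℝ) / Fintype.card Ω := by
  unfold Ex
  rw [Finset.sum_boole]
  congr 3
  ext x
  simp

/-- Jensen for the exponential. -/
theorem exp_Ex_le [Nonempty Ω] (f : Ω → ℝ) : Real.exp (Ex f) ≤ Ex (fun ω => Real.exp (f ω)) := by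
  have h : ∀ ω, Real.exp (Ex f) * (1 - Ex f) + Real.exp (Ex f) * f ω ≤ Real.exp (f ω) := by
    intro ω
    have h1 := Real.add_one_le_exp (f ω - Ex f)
    have h2 : Real.exp (f ω) = Real.exp (Ex f) * Real.exp (f ω - Ex f) := by
      rw [← Real.exp_add]; congr 1; ring
    rw [h2, ← mul_add]
    refine mul_le_mul_of_nonneg_left ?_ (Real.exp_pos _).le
    linarith
  have h3 := Ex_mono h
  rw [Ex_add, Ex_const, Ex_mul_left] at h3
  linarith [h3]

end basic

section prod

variable {E P : Type} [Fintype E] [DecidableEq E] [Fintype P]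

theorem Ex_prod (F : E → P → ℝ) :
    Ex (fun ω : E → P => ∏ e, F e (ω e)) = ∏ e, Ex (F e) := by
  unfold Ex
  rw [Finset.prod_div_distrib, Finset.prod_const, Finset.card_univ, Fintype.card_fun,
    Finset.prod_univ_sum, Fintype.piFinset_univ]
  push_cast
  rfl

theorem Ex_coord [Nonempty P] (a : E) (f : P → ℝ) : Ex (fun ω : E → P => f (ω a)) = Ex f := by
  have h := Ex_prod (E := E) (P := P) (fun e p => if e = a then f p else 1)
  have h1 : (fun ω : E → P => ∏ e, (if e = a then f (ω e) else 1)) = fun ω => f (ω a) := by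
    funext ω
    rw [Finset.prod_ite_eq']
    simp
  rw [h1] at h
  rw [h]
  have h2 : ∀ e, Ex (fun p => if e = a then f p else 1) = if e = a then Ex f else 1 := by
    intro e
    by_cases he : e = a
    · simp [he]
    · simp only [he, if_false]
      exact Ex_const 1
  simp only [h2]
  rw [Finset.prod_ite_eq']
  simp

theorem Ex_three [Nonempty P] {a b c : E} (hab : a ≠ b) (hac : a ≠ c) (hbc : b ≠ c)
    (f g h : P → ℝ) :
    Ex (fun ω : E → P => f (ω a) * g (ω b) * h (ω c)) = Ex f * Ex g * Ex h := by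
  have h0 := Ex_prod (E := E) (P := P)
    (fun e p => (if e = a then f p else 1) * (if e = b then g p else 1) * (if e = c then h p else 1))
  have h1 : (fun ω : E → P => ∏ e, ((if e = a then f (ω e) else 1) * (if e = b then g (ω e) else 1) *
      (if e = c then h (ω e) else 1))) = fun ω => f (ω a) * g (ω b) * h (ω c) := by
    funext ω
    rw [Finset.prod_mul_distrib, Finset.prod_mul_distrib, Finset.prod_ite_eq',
      Finset.prod_ite_eq', Finset.prod_ite_eq']
    simp
  rw [h1] at h0
  rw [h0]
  have h2 : ∀ e, Ex (fun p => (if e = a then f p else 1) * (if e = b then g p else 1) *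
      (if e = c then h p else 1)) =
      (if e = a then Ex f else 1) * (if e = b then Ex g else 1) * (if e = c then Ex h else 1) := by
    intro e
    by_cases he : e = a
    · subst he
      simp [hab, hac]
    · by_cases he' : e = b
      · subst he'
        simp [he, hbc]
      · by_cases he'' : e = c
        · subst he''
          simp [he, he']
        · simp only [he, he', he'', if_false, mul_one]
          exact Ex_const 1
  simp only [h2]
  rw [Finset.prod_mul_distrib, Finset.prod_mul_distrib, Finset.prod_ite_eq',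
    Finset.prod_ite_eq', Finset.prod_ite_eq']
  simp

end prod

end Pool.Agent.Q220.CE
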