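import Mathlib

set_option autoImplicit false

/-! Random lifts of a graph: `N` copies of `G` and random edges inside the fibres. -/

namespace Pool.Agent.Q220.CE

open Finset Classical

/-- A proper colouring as a function. -/
def Proper {V : Type} (G : SimpleGraph V) {q : ℕ} (f : V → Fin q) : Prop :=
  ∀ u v, G.Adj u v → f u ≠ f v

/-- The number of proper colourings. -/
noncomputable def cnt {V : Type} (G : SimpleGraph V) (q : ℕ) : ℕ :=
  Nat.card {f : V → Fin q // Proper G f}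

/-- Indices of the random edges. -/
abbrev Idx {V : Type} (t : V → ℕ) (N : ℕ) : Type := Σ v : V, Fin (t v * N)

/-- `p` is the unordered pair `i j`. -/
def Pr {N : ℕ} (i j : Fin N) (p : Fin N × Fin N) : Prop := p = (i, j) ∨ p = (j, i)

/-- `i` is an end of `p`. -/
def Touch {N : ℕ} (i : Fin N) (p : Fin N × Fin N) : Prop := p.1 = i ∨ p.2 = i

theorem Pr.symm {N : ℕ} {i j : Fin N} {p : Fin N × Fin N} (h : Pr i j p) : Pr j i p := Or.symm h

theorem Pr.touch {N : ℕ} {i j : Fin N} {p : Fin N × Fin N} (h : Pr i j p) : Touch i p := by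
  rcases h with h | h <;> subst h
  · exact Or.inl rfl
  · exact Or.inr rfl

section

variable {V : Type} {t : V → ℕ} {N : ℕ}

/-- The number of random edges that touch `(v, i)`. -/
noncomputable def X (ω : Idx t N → Fin N × Fin N) (v : V) (i : Fin N) : ℕ :=
  (univ.filter (fun k : Fin (t v * N) => Touch i (ω ⟨v, k⟩))).card

/-- The bad edges. -/
def Bad (r : V → ℕ) (ω : Idx t N → Fin N × Fin N) (e : Idx t N) : Prop :=
  (ω e).1 = (ω e).2 ∨ (∃ i, Touch i (ω e) ∧ r e.1 < X ω e.1 i) ∨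
    ∃ k2 k3 : Fin (t e.1 * N), ∃ i j l : Fin N, (i ≠ j ∧ j ≠ l ∧ i ≠ l) ∧
      Pr i j (ω e) ∧ Pr j l (ω ⟨e.1, k2⟩) ∧ Pr i l (ω ⟨e.1, k3⟩)

/-- The lift. -/
def lift (G : SimpleGraph V) (r : V → ℕ) (ω : Idx t N → Fin N × Fin N) :
    SimpleGraph (V × Fin N) where
  Adj x y := (x.2 = y.2 ∧ G.Adj x.1 y.1) ∨
    (x.1 = y.1 ∧ x.2 ≠ y.2 ∧ ∃ k : Fin (t x.1 * N), ¬ Bad r ω ⟨x.1, k⟩ ∧ Pr x.2 y.2 (ω ⟨x.1, k⟩))
  symm := ⟨by
    rintro ⟨u, i⟩ ⟨v, j⟩ h
    rcases h with ⟨h1, h2⟩ | ⟨h1, h2, k, h3, h4⟩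
    · exact Or.inl ⟨h1.symm, h2.symm⟩
    · dsimp at h1 h2 h3 h4
      subst h1
      exact Or.inr ⟨rfl, Ne.symm h2, k, h3, h4.symm⟩⟩
  loopless := ⟨by
    rintro ⟨u, i⟩ h
    rcases h with ⟨h1, h2⟩ | ⟨h1, h2, h3⟩
    · exact G.loopless.irrefl _ h2
    · exact h2 rfl⟩

theorem lift_adj (G : SimpleGraph V) (r : V → ℕ) (ω : Idx t N → Fin N × Fin N)
    (x y : V × Fin N) : (lift G r ω).Adj x y ↔ (x.2 = y.2 ∧ G.Adj x.1 y.1) ∨
    (x.1 = y.1 ∧ x.2 ≠ y.2 ∧ ∃ k : Fin (t x.1 * N),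
      ¬ Bad r ω ⟨x.1, k⟩ ∧ Pr x.2 y.2 (ω ⟨x.1, k⟩)) := Iff.rfl

theorem lift_cliqueFree (G : SimpleGraph V) (r : V → ℕ) (ω : Idx t N → Fin N × Fin N)
    {m : ℕ} (hm : 3 ≤ m) (hG : G.CliqueFree m) : (lift G r ω).CliqueFree m := by
  intro s hs
  by_cases hall : ∀ x ∈ s, ∀ y ∈ s, x.2 = y.2
  · -- all in one copy
    apply hG (s.image Prod.fst)
    rw [SimpleGraph.isNClique_iff] at hs ⊢
    obtain ⟨hc, hcard⟩ := hs
    constructor
    · intro a ha b hb hab
      rw [Finset.mem_coe, Finset.mem_image] at ha hb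
      obtain ⟨x, hx, rfl⟩ := ha
      obtain ⟨y, hy, rfl⟩ := hb
      have hxy : x ≠ y := fun h => hab (by rw [h])
      have h := hc (Finset.mem_coe.2 hx) (Finset.mem_coe.2 hy) hxy
      rw [lift_adj] at h
      rcases h with h | h
      · exact h.2
      · exact absurd h.1 hab
    · rw [Finset.card_image_of_injOn, hcard]
      intro x hx y hy hxy
      exact Prod.ext hxy (hall x hx y hy)
  · push Not at hall
    obtain ⟨x, hx, y, hy, hxy⟩ := hall
    rw [SimpleGraph.isNClique_iff] at hs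
    obtain ⟨hc, hcard⟩ := hs
    have hne : x ≠ y := fun h => hxy (by rw [h])
    have h1 := hc (Finset.mem_coe.2 hx) (Finset.mem_coe.2 hy) hne
    have h1' : x.1 = y.1 := by
      rw [lift_adj] at h1
      rcases h1 with h | h
      · exact absurd h.1 hxy
      · exact h.1
    obtain ⟨w, hw, hwx, hwy⟩ : ∃ w ∈ s, w ≠ x ∧ w ≠ y := by
      by_contra hcon
      push Not at hcon
      have : s ⊆ {x, y} := by
        intro w hw
        rw [Finset.mem_insert, Finset.mem_singleton]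
        by_cases h : w = x
        · exact Or.inl h
        · exact Or.inr (hcon w hw h)
      have h2 := (Finset.card_le_card this).trans Finset.card_le_two
      omega
    have h2 := hc (Finset.mem_coe.2 hx) (Finset.mem_coe.2 hw) hwx.symm
    have h3 := hc (Finset.mem_coe.2 hy) (Finset.mem_coe.2 hw) hwy.symm
    have h4 : x.1 = w.1 := by
      rw [lift_adj] at h2 h3
      rcases h2 with h2 | h2
      · rcases h3 with h3 | h3
        · exact absurd (h2.1.trans h3.1.symm) hxy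
        · exact h1'.trans h3.1
      · exact h2.1
    obtain ⟨u, i⟩ := x
    obtain ⟨u', j⟩ := y
    obtain ⟨u'', l⟩ := w
    dsimp at h1' h4 hxy
    subst h1' h4
    rw [lift_adj] at h1 h2 h3
    have hil : i ≠ l := fun h => hwx (by rw [h])
    have hjl : j ≠ l := fun h => hwy (by rw [h])
    rcases h1 with h1 | ⟨-, -, k1, hb1, hp1⟩
    · exact hxy h1.1
    rcases h2 with h2 | ⟨-, -, k2, hb2, hp2⟩
    · exact hil h2.1
    rcases h3 with h3 | ⟨-, -, k3, hb3, hp3⟩
    · exact hjl h3.1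
    apply hb1
    exact Or.inr (Or.inr ⟨k3, k2, i, j, l, ⟨hxy, hjl, hil⟩, hp1, hp3, hp2⟩)

theorem lift_degree [Finite V] (G : SimpleGraph V) (r : V → ℕ) (ω : Idx t N → Fin N × Fin N)
    (x : V × Fin N) :
    ((lift G r ω).neighborSet x).ncard ≤ (G.neighborSet x.1).ncard + r x.1 := by
  obtain ⟨v, i⟩ := x
  dsimp only
  let S : Set (Fin (t v * N)) := {k | ¬ Bad r ω ⟨v, k⟩ ∧ Touch i (ω ⟨v, k⟩)}
  let oth : Fin (t v * N) → V × Fin N := fun k =>
    (v, if (ω ⟨v, k⟩).1 = i then (ω ⟨v, k⟩).2 else (ω ⟨v, k⟩).1)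
  have hsub : (lift G r ω).neighborSet (v, i) ⊆
      (fun u => (u, i)) '' (G.neighborSet v) ∪ oth '' S := by
    rintro ⟨u, j⟩ h
    rw [SimpleGraph.mem_neighborSet, lift_adj] at h
    rcases h with ⟨h1, h2⟩ | ⟨h1, h2, k, h3, h4⟩
    · left
      dsimp at h1 h2
      subst h1
      exact ⟨u, h2, rfl⟩
    · right
      dsimp at h1 h2 h3 h4
      subst h1
      refine ⟨k, ⟨h3, h4.touch⟩, ?_⟩
      rcases h4 with h4 | h4
      · simp only [oth, h4, if_true]
      · simp only [oth, h4]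
        rw [if_neg (Ne.symm h2)]
  have hS : S.ncard ≤ r v := by
    by_cases hne : S.Nonempty
    · obtain ⟨k, hk1, hk2⟩ := hne
      have h1 : ¬ r v < X ω v i := by
        intro h
        exact hk1 (Or.inr (Or.inl ⟨i, hk2, h⟩))
      refine le_trans ?_ (not_lt.1 h1)
      unfold X
      rw [← Set.ncard_coe_finset]
      refine Set.ncard_le_ncard ?_ (Set.toFinite _)
      rintro k' ⟨-, hk'⟩
      rw [Finset.mem_coe, Finset.mem_filter]
      exact ⟨Finset.mem_univ _, hk'⟩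
    · rw [Set.not_nonempty_iff_eq_empty.1 hne, Set.ncard_empty]
      exact Nat.zero_le _
  calc ((lift G r ω).neighborSet (v, i)).ncard
      ≤ ((fun u => (u, i)) '' (G.neighborSet v) ∪ oth '' S).ncard :=
        Set.ncard_le_ncard hsub (Set.toFinite _)
    _ ≤ ((fun u => (u, i)) '' (G.neighborSet v)).ncard + (oth '' S).ncard :=
        Set.ncard_union_le _ _
    _ ≤ (G.neighborSet v).ncard + S.ncard :=
        Nat.add_le_add (Set.ncard_image_le (Set.toFinite _)) (Set.ncard_image_le (Set.toFinite _))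
    _ ≤ (G.neighborSet v).ncard + r v := Nat.add_le_add_left hS _

/-- The number of conflicts. -/
noncomputable def K [Fintype V] {q : ℕ} (F : Fin N → V → Fin q) (ω : Idx t N → Fin N × Fin N) : ℕ :=
  (univ.filter (fun e : Idx t N => F (ω e).1 e.1 = F (ω e).2 e.1)).card

/-- The number of bad edges. -/
noncomputable def B [Fintype V] (r : V → ℕ) (ω : Idx t N → Fin N × Fin N) : ℕ :=
  (univ.filter (fun e : Idx t N => Bad r ω e)).card

theorem K_le_B [Fintype V] (G : SimpleGraph V) (r : V → ℕ) (ω : Idx t N → Fin N × Fin N) {q : ℕ}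
    (C : V × Fin N → Fin q) (hC : Proper (lift G r ω) C) :
    K (fun i v => C (v, i)) ω ≤ B r ω := by
  unfold K B
  refine Finset.card_le_card ?_
  intro e he
  rw [Finset.mem_filter] at he ⊢
  refine ⟨Finset.mem_univ _, ?_⟩
  by_contra hb
  have hne : (ω e).1 ≠ (ω e).2 := fun h => hb (Or.inl h)
  refine hC (e.1, (ω e).1) (e.1, (ω e).2) ?_ he.2
  rw [lift_adj]
  right
  refine ⟨rfl, hne, e.2, hb, ?_⟩
  left
  rfl

theorem proper_fibre (G : SimpleGraph V) (r : V → ℕ) (ω : Idx t N → Fin N × Fin N) {q : ℕ}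
    (C : V × Fin N → Fin q) (hC : Proper (lift G r ω) C) (i : Fin N) :
    Proper G (fun v => C (v, i)) := by
  intro u v h
  exact hC (u, i) (v, i) (Or.inl ⟨rfl, h⟩)

/-- The colourings of the lift, weighted. -/
theorem cnt_lift_le [Fintype V] (G : SimpleGraph V) (r : V → ℕ) (ω : Idx t N → Fin N × Fin N)
    (q : ℕ) (lam : ℝ) (h0 : 0 < lam) (h1 : lam ≤ 1) :
    (cnt (lift G r ω) q : ℝ) * lam ^ (B r ω) ≤
      ∑ F : Fin N → {f : V → Fin q // Proper G f}, lam ^ (K (fun i v => (F i).1 v) ω) := by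
  unfold cnt
  rw [Nat.card_eq_fintype_card]
  let Φ : {f : V × Fin N → Fin q // Proper (lift G r ω) f} →
      (Fin N → {f : V → Fin q // Proper G f}) :=
    fun C i => ⟨fun v => C.1 (v, i), proper_fibre G r ω C.1 C.2 i⟩
  have hΦ : Function.Injective Φ := by
    intro C C' h
    apply Subtype.ext
    funext x
    have h2 := congrFun h x.2
    have h3 := congrArg Subtype.val h2
    exact congrFun h3 x.1
  calc (Fintype.card {f : V × Fin N → Fin q // Proper (lift G r ω) f} : ℝ) * lam ^ (B r ω)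
      = ∑ _C : {f : V × Fin N → Fin q // Proper (lift G r ω) f}, lam ^ (B r ω) := by
        rw [Finset.sum_const, Finset.card_univ, nsmul_eq_mul]
    _ ≤ ∑ C : {f : V × Fin N → Fin q // Proper (lift G r ω) f},
          lam ^ (K (fun i v => (Φ C i).1 v) ω) := by
        refine Finset.sum_le_sum fun C _ => ?_
        exact pow_le_pow_of_le_one h0.le h1 (K_le_B G r ω C.1 C.2)
    _ = ∑ F ∈ Finset.univ.map ⟨Φ, hΦ⟩, lam ^ (K (fun i v => (F i).1 v) ω) := by
        rw [Finset.sum_map]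
        rfl
    _ ≤ _ := Finset.sum_le_univ_sum_of_nonneg fun F => pow_nonneg h0.le _

end

end Pool.Agent.Q220.CE
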