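import Mathlib
import Pool.Agent.Q220.CE.Avg
import Pool.Agent.Q220.CE.Lift

set_option autoImplicit false

/-! Averages over the random lifts. -/

namespace Pool.Agent.Q220.CE

open Finset Classical

/-- Indicator. -/
noncomputable def ind (p : Prop) : ℝ := if p then 1 else 0

theorem ind_eq (p : Prop) [Decidable p] : ind p = if p then 1 else 0 := by
  unfold ind
  congr

theorem ind_nonneg (p : Prop) : 0 ≤ ind p := by
  unfold ind; split_ifs <;> norm_num

theorem ind_of {p : Prop} (h : p) : ind p = 1 := if_pos h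

theorem ind_of_not {p : Prop} (h : ¬ p) : ind p = 0 := if_neg h

theorem ind_le_one (p : Prop) : ind p ≤ 1 := by
  unfold ind; split_ifs <;> norm_num

theorem ind_or_le (p p' : Prop) : ind (p ∨ p') ≤ ind p + ind p' := by
  unfold ind
  by_cases h : p <;> by_cases h' : p' <;> simp [h, h']

theorem ind_exists_le {α : Type} [Fintype α] (p : α → Prop) :
    ind (∃ a, p a) ≤ ∑ a, ind (p a) := by
  by_cases h : ∃ a, p a
  · obtain ⟨a, ha⟩ := h
    rw [ind_of ⟨a, ha⟩, ← ind_of ha]
    exact Finset.single_le_sum (fun a _ => ind_nonneg _) (Finset.mem_univ a)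
  · rw [ind_of_not h]
    exact Finset.sum_nonneg fun a _ => ind_nonneg _

section pairs

variable {N : ℕ}

theorem card_pair : (Fintype.card (Fin N × Fin N) : ℝ) = (N : ℝ) ^ 2 := by
  rw [Fintype.card_prod, Fintype.card_fin]
  push_cast
  ring

theorem Ex_pair_eq (x : Fin N × Fin N) : Ex (fun p : Fin N × Fin N => ind (p = x)) =
    1 / (N : ℝ) ^ 2 := by
  unfold Ex
  rw [card_pair]
  congr 1
  simp only [ind_eq]
  rw [Finset.sum_ite_eq']
  simp

theorem Ex_Pr (i j : Fin N) : Ex (fun p : Fin N × Fin N => ind (Pr i j p)) ≤ 2 / (N : ℝ) ^ 2 := by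
  have h : ∀ p : Fin N × Fin N, ind (Pr i j p) ≤ ind (p = (i, j)) + ind (p = (j, i)) :=
    fun p => ind_or_le _ _
  refine (Ex_mono h).trans ?_
  rw [Ex_add, Ex_pair_eq, Ex_pair_eq]
  apply le_of_eq
  ring

theorem sum_fst_eq (i : Fin N) : ∑ p : Fin N × Fin N, ind (p.1 = i) = N := by
  rw [Fintype.sum_prod_type]
  simp only [ind_eq, Finset.sum_const, Finset.card_univ, Fintype.card_fin, nsmul_eq_mul]
  rw [← Finset.mul_sum, Finset.sum_ite_eq']
  simp

theorem sum_snd_eq (i : Fin N) : ∑ p : Fin N × Fin N, ind (p.2 = i) = N := by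
  rw [Fintype.sum_prod_type]
  simp only [ind_eq, Finset.sum_ite_eq', Finset.mem_univ, if_true, Finset.sum_const,
    Finset.card_univ, Fintype.card_fin, nsmul_eq_mul, mul_one]

theorem Ex_Touch (hN : 1 ≤ N) (i : Fin N) :
    Ex (fun p : Fin N × Fin N => ind (Touch i p)) ≤ 2 / (N : ℝ) := by
  have hN' : (0 : ℝ) < N := by exact_mod_cast hN
  have h : ∀ p : Fin N × Fin N, ind (Touch i p) ≤ ind (p.1 = i) + ind (p.2 = i) :=
    fun p => ind_or_le _ _
  refine (Ex_mono h).trans ?_
  rw [Ex_add]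
  unfold Ex
  rw [sum_fst_eq, sum_snd_eq, card_pair]
  apply le_of_eq
  field_simp
  ring

theorem Ex_loop (hN : 1 ≤ N) :
    Ex (fun p : Fin N × Fin N => ind (p.1 = p.2)) = 1 / (N : ℝ) := by
  have hN' : (0 : ℝ) < N := by exact_mod_cast hN
  unfold Ex
  rw [card_pair, Fintype.sum_prod_type]
  have : ∀ x : Fin N, ∑ y : Fin N, ind ((x, y).1 = (x, y).2) = 1 := by
    intro x
    simp [ind_eq]
  simp only [this, Finset.sum_const, Finset.card_univ, Fintype.card_fin, nsmul_eq_mul, mul_one]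
  field_simp

/-- The pairs of equal colour. -/
theorem Ex_mono_pairs (hN : 1 ≤ N) {q : ℕ} (hq : 1 ≤ q) (f : Fin N → Fin q) :
    1 / (q : ℝ) ≤ Ex (fun p : Fin N × Fin N => ind (f p.1 = f p.2)) := by
  have hN' : (0 : ℝ) < N := by exact_mod_cast hN
  have hq' : (0 : ℝ) < q := by exact_mod_cast hq
  have h1 : ∑ p : Fin N × Fin N, ind (f p.1 = f p.2) = ∑ c : Fin q, (∑ i, ind (f i = c)) ^ 2 := by
    have h2 : ∀ c : Fin q, (∑ i, ind (f i = c)) ^ 2 =
        ∑ i, ∑ j, ind (f i = c) * ind (f j = c) := by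
      intro c
      rw [sq, Finset.sum_mul_sum]
    simp only [h2]
    rw [Finset.sum_comm, Fintype.sum_prod_type]
    refine Finset.sum_congr rfl fun i _ => ?_
    rw [Finset.sum_comm]
    refine Finset.sum_congr rfl fun j _ => ?_
    dsimp only
    rw [Finset.sum_eq_single (f i)]
    · rw [ind_of rfl, one_mul]
      congr 1
      exact propext eq_comm
    · intro c _ hc
      rw [ind_of_not (Ne.symm hc), zero_mul]
    · intro h
      exact absurd (Finset.mem_univ _) h
  have h3 : ∑ c : Fin q, ∑ i, ind (f i = c) = N := by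
    rw [Finset.sum_comm]
    have : ∀ i : Fin N, ∑ c : Fin q, ind (f i = c) = 1 := by
      intro i
      simp [ind_eq]
    simp [this]
  have h4 := sq_sum_le_card_mul_sum_sq (s := (Finset.univ : Finset (Fin q)))
    (f := fun c => ∑ i, ind (f i = c))
  rw [h3, Finset.card_univ, Fintype.card_fin] at h4
  unfold Ex
  rw [card_pair, h1, div_le_div_iff₀ hq' (by positivity)]
  linarith

theorem Ex_conflict (hN : 1 ≤ N) {q : ℕ} (hq : 1 ≤ q) (f : Fin N → Fin q) {lam : ℝ}
    (h1 : lam ≤ 1) :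
    Ex (fun p : Fin N × Fin N => if f p.1 = f p.2 then lam else 1) ≤ 1 - (1 - lam) / q := by
  have : Nonempty (Fin N × Fin N) := ⟨(⟨0, hN⟩, ⟨0, hN⟩)⟩
  have h2 : (fun p : Fin N × Fin N => if f p.1 = f p.2 then lam else 1) =
      fun p => 1 + (-(1 - lam)) * ind (f p.1 = f p.2) := by
    funext p
    unfold ind
    split_ifs <;> ring
  rw [h2, Ex_add, Ex_const, Ex_mul_left]
  have h3 := Ex_mono_pairs hN hq f
  have h4 : (1 - lam) * (1 / (q : ℝ)) ≤
      (1 - lam) * Ex (fun p : Fin N × Fin N => ind (f p.1 = f p.2)) :=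
    mul_le_mul_of_nonneg_left h3 (by linarith)
  have h5 : (1 - lam) * (1 / (q : ℝ)) = (1 - lam) / q := by ring
  linarith

end pairs

section main

variable {V : Type} [Fintype V] {t : V → ℕ} {N : ℕ}

theorem card_idx : Fintype.card (Idx t N) = (∑ v, t v) * N := by
  rw [Fintype.card_sigma]
  simp only [Fintype.card_fin]
  rw [Finset.sum_mul]

/-- The average weight of a fixed tuple of colourings. -/
theorem Ex_K (hN : 1 ≤ N) {q : ℕ} (hq : 1 ≤ q) (F : Fin N → V → Fin q) {lam : ℝ}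
    (h0 : 0 ≤ lam) (h1 : lam ≤ 1) :
    Ex (fun ω : Idx t N → Fin N × Fin N => lam ^ (K F ω)) ≤
      (1 - (1 - lam) / q) ^ ((∑ v, t v) * N) := by
  have h2 : (fun ω : Idx t N → Fin N × Fin N => lam ^ (K F ω)) =
      fun ω => ∏ e, (fun (e : Idx t N) (p : Fin N × Fin N) =>
        if F p.1 e.1 = F p.2 e.1 then lam else 1) e (ω e) := by
    funext ω
    unfold K
    dsimp only
    rw [Finset.prod_ite, Finset.prod_const, Finset.prod_const_one, mul_one]
  calc Ex (fun ω : Idx t N → Fin N × Fin N => lam ^ (K F ω))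
      = ∏ e : Idx t N, Ex (fun p : Fin N × Fin N => if F p.1 e.1 = F p.2 e.1 then lam else 1) := by
        rw [h2]
        exact Ex_prod (E := Idx t N) (P := Fin N × Fin N)
          (fun e p => if F p.1 e.1 = F p.2 e.1 then lam else 1)
    _ ≤ ∏ _e : Idx t N, (1 - (1 - lam) / (q : ℝ)) := by
        refine Finset.prod_le_prod (fun e _ => Ex_nonneg fun p => ?_) fun e _ => ?_
        · split_ifs
          · exact h0
          · norm_num
        · exact Ex_conflict hN hq (fun i => F i e.1) h1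
    _ = _ := by
        rw [Finset.prod_const, Finset.card_univ, card_idx]

/-- The tail bound. -/
theorem Ex_tail (hN : 1 ≤ N) (r : ℕ) {z : ℝ} (hz : 1 ≤ z) (v : V) (k0 : Fin (t v * N))
    (i : Fin N) :
    Ex (fun ω : Idx t N → Fin N × Fin N => ind (Touch i (ω ⟨v, k0⟩) ∧ r < X ω v i)) ≤
      (z ^ r)⁻¹ * (2 / N) * Real.exp (2 * (z - 1) * t v) := by
  have : Nonempty (Fin N × Fin N) := ⟨(⟨0, hN⟩, ⟨0, hN⟩)⟩
  have hN' : (0 : ℝ) < N := by exact_mod_cast hN
  have hz0 : (0 : ℝ) < z := by linarith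
  let G : Idx t N → Fin N × Fin N → ℝ := fun e p =>
    (if e = ⟨v, k0⟩ then ind (Touch i p) else 1) *
      (if e.1 = v then (if Touch i p then z else 1) else 1)
  have hprod : ∀ ω : Idx t N → Fin N × Fin N,
      ∏ e, G e (ω e) = ind (Touch i (ω ⟨v, k0⟩)) * z ^ (X ω v i) := by
    intro ω
    simp only [G]
    rw [Finset.prod_mul_distrib, Finset.prod_ite_eq']
    rw [if_pos (Finset.mem_univ _)]
    congr 1
    rw [Fintype.prod_sigma, Finset.prod_eq_single v]
    · dsimp only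
      simp only [if_true]
      rw [Finset.prod_ite, Finset.prod_const, Finset.prod_const_one, mul_one]
      rfl
    · intro u _ hu
      dsimp only
      simp only [hu, if_false, Finset.prod_const_one]
    · intro h
      exact absurd (Finset.mem_univ _) h
  have hle : ∀ ω : Idx t N → Fin N × Fin N,
      ind (Touch i (ω ⟨v, k0⟩) ∧ r < X ω v i) ≤ (z ^ (r + 1))⁻¹ * ∏ e, G e (ω e) := by
    intro ω
    rw [hprod]
    by_cases h : Touch i (ω ⟨v, k0⟩) ∧ r < X ω v i
    · rw [ind_of h, ind_of h.1, one_mul]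
      have h2 : z ^ (r + 1) ≤ z ^ (X ω v i) := pow_le_pow_right₀ hz h.2
      rw [inv_mul_eq_div, one_le_div (by positivity)]
      exact h2
    · rw [ind_of_not h]
      have := ind_nonneg (Touch i (ω ⟨v, k0⟩))
      positivity
  have hG : ∀ e, Ex (G e) ≤ (if e = ⟨v, k0⟩ then (2 * z / N) else 1) *
      (if e.1 = v then (1 + 2 * (z - 1) / N) else 1) := by
    intro e
    have hT := Ex_Touch hN i
    by_cases he : e = ⟨v, k0⟩
    · subst he
      have h1 : G ⟨v, k0⟩ = fun p => z * ind (Touch i p) := by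
        funext p
        simp only [G, if_true]
        unfold ind
        by_cases h : Touch i p <;> simp [h]
      rw [h1, Ex_mul_left]
      simp only [if_true]
      have h2 : z * Ex (fun p : Fin N × Fin N => ind (Touch i p)) ≤ 2 * z / N := by
        calc z * Ex (fun p : Fin N × Fin N => ind (Touch i p)) ≤ z * (2 / N) :=
              mul_le_mul_of_nonneg_left hT hz0.le
          _ = 2 * z / N := by ring
      refine h2.trans ?_
      have h3 : 0 ≤ 2 * (z - 1) / N := by
        apply div_nonneg _ hN'.le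
        linarith
      have h4 : 0 ≤ 2 * z / N := by positivity
      nlinarith
    · by_cases hv : e.1 = v
      · have h1 : G e = fun p => 1 + (z - 1) * ind (Touch i p) := by
          funext p
          simp only [G, he, hv, if_false, if_true, one_mul]
          unfold ind
          by_cases h : Touch i p <;> simp [h]
        rw [h1, Ex_add, Ex_const, Ex_mul_left]
        simp only [he, hv, if_false, if_true, one_mul]
        have h2 : (z - 1) * Ex (fun p : Fin N × Fin N => ind (Touch i p)) ≤ (z - 1) * (2 / N) :=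
          mul_le_mul_of_nonneg_left hT (by linarith)
        have h3 : (z - 1) * (2 / (N : ℝ)) = 2 * (z - 1) / N := by ring
        linarith
      · have h1 : G e = fun _ => 1 := by
          funext p
          simp only [G, he, hv, if_false, one_mul]
        rw [h1, Ex_const]
        simp only [he, hv, if_false, one_mul, le_refl]
  have hG0 : ∀ e, 0 ≤ Ex (G e) := by
    intro e
    refine Ex_nonneg fun p => ?_
    simp only [G]
    refine mul_nonneg ?_ ?_
    · split_ifs
      · exact ind_nonneg _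
      · norm_num
    · split_ifs <;> linarith
  calc Ex (fun ω : Idx t N → Fin N × Fin N => ind (Touch i (ω ⟨v, k0⟩) ∧ r < X ω v i))
      ≤ Ex (fun ω : Idx t N → Fin N × Fin N => (z ^ (r + 1))⁻¹ * ∏ e, G e (ω e)) := Ex_mono hle
    _ = (z ^ (r + 1))⁻¹ * ∏ e, Ex (G e) := by rw [Ex_mul_left, Ex_prod]
    _ ≤ (z ^ (r + 1))⁻¹ * ∏ e : Idx t N, ((if e = ⟨v, k0⟩ then (2 * z / N) else 1) *
          (if e.1 = v then (1 + 2 * (z - 1) / N) else 1)) := by
        refine mul_le_mul_of_nonneg_left ?_ (by positivity)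
        exact Finset.prod_le_prod (fun e _ => hG0 e) fun e _ => hG e
    _ = (z ^ (r + 1))⁻¹ * ((2 * z / N) * (1 + 2 * (z - 1) / N) ^ (t v * N)) := by
        congr 1
        rw [Finset.prod_mul_distrib, Finset.prod_ite_eq', if_pos (Finset.mem_univ _)]
        congr 1
        rw [Fintype.prod_sigma, Finset.prod_eq_single v]
        · simp only [if_true, Finset.prod_const, Finset.card_univ, Fintype.card_fin]
        · intro u _ hu
          simp only [hu, if_false, Finset.prod_const_one]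
        · intro h
          exact absurd (Finset.mem_univ _) h
    _ ≤ (z ^ (r + 1))⁻¹ * ((2 * z / N) * Real.exp (2 * (z - 1) * t v)) := by
        refine mul_le_mul_of_nonneg_left ?_ (by positivity)
        refine mul_le_mul_of_nonneg_left ?_ (by positivity)
        have h1 : 1 + 2 * (z - 1) / N ≤ Real.exp (2 * (z - 1) / N) := by
          have := Real.add_one_le_exp (2 * (z - 1) / N)
          linarith
        have h2 : 0 ≤ 1 + 2 * (z - 1) / N := by
          have : 0 ≤ 2 * (z - 1) / N := div_nonneg (by linarith) hN'.le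
          linarith
        calc (1 + 2 * (z - 1) / N) ^ (t v * N) ≤ (Real.exp (2 * (z - 1) / N)) ^ (t v * N) :=
              pow_le_pow_left₀ h2 h1 _
          _ = Real.exp (2 * (z - 1) * t v) := by
              rw [← Real.exp_nat_mul]
              congr 1
              push_cast
              field_simp
    _ = (z ^ r)⁻¹ * (2 / N) * Real.exp (2 * (z - 1) * t v) := by
        rw [pow_succ]
        field_simp

/-- Triangles. -/
theorem Ex_triangle (hN : 1 ≤ N) (v : V) (k1 k2 k3 : Fin (t v * N)) (i j l : Fin N) :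
    Ex (fun ω : Idx t N → Fin N × Fin N => ind ((i ≠ j ∧ j ≠ l ∧ i ≠ l) ∧
      Pr i j (ω ⟨v, k1⟩) ∧ Pr j l (ω ⟨v, k2⟩) ∧ Pr i l (ω ⟨v, k3⟩))) ≤ 8 / (N : ℝ) ^ 6 := by
  have : Nonempty (Fin N × Fin N) := ⟨(⟨0, hN⟩, ⟨0, hN⟩)⟩
  have hN' : (0 : ℝ) < N := by exact_mod_cast hN
  by_cases hd : k1 ≠ k2 ∧ k1 ≠ k3 ∧ k2 ≠ k3
  · obtain ⟨h12, h13, h23⟩ := hd
    have e12 : (⟨v, k1⟩ : Idx t N) ≠ ⟨v, k2⟩ := by
      intro h
      rw [Sigma.mk.injEq] at h
      exact h12 (eq_of_heq h.2)
    have e13 : (⟨v, k1⟩ : Idx t N) ≠ ⟨v, k3⟩ := by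
      intro h
      rw [Sigma.mk.injEq] at h
      exact h13 (eq_of_heq h.2)
    have e23 : (⟨v, k2⟩ : Idx t N) ≠ ⟨v, k3⟩ := by
      intro h
      rw [Sigma.mk.injEq] at h
      exact h23 (eq_of_heq h.2)
    have hle : ∀ ω : Idx t N → Fin N × Fin N, ind ((i ≠ j ∧ j ≠ l ∧ i ≠ l) ∧
        Pr i j (ω ⟨v, k1⟩) ∧ Pr j l (ω ⟨v, k2⟩) ∧ Pr i l (ω ⟨v, k3⟩)) ≤
        ind (Pr i j (ω ⟨v, k1⟩)) * ind (Pr j l (ω ⟨v, k2⟩)) * ind (Pr i l (ω ⟨v, k3⟩)) := by
      intro ω
      by_cases h : (i ≠ j ∧ j ≠ l ∧ i ≠ l) ∧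
        Pr i j (ω ⟨v, k1⟩) ∧ Pr j l (ω ⟨v, k2⟩) ∧ Pr i l (ω ⟨v, k3⟩)
      · rw [ind_of h, ind_of h.2.1, ind_of h.2.2.1, ind_of h.2.2.2]
        norm_num
      · rw [ind_of_not h]
        exact mul_nonneg (mul_nonneg (ind_nonneg _) (ind_nonneg _)) (ind_nonneg _)
    refine (Ex_mono hle).trans ?_
    rw [Ex_three e12 e13 e23 (fun p => ind (Pr i j p)) (fun p => ind (Pr j l p))
      (fun p => ind (Pr i l p))]
    have a1 := Ex_Pr i j
    have a2 := Ex_Pr j l
    have a3 := Ex_Pr i l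
    have b1 : 0 ≤ Ex (fun p : Fin N × Fin N => ind (Pr i j p)) := Ex_nonneg fun p => ind_nonneg _
    have b2 : 0 ≤ Ex (fun p : Fin N × Fin N => ind (Pr j l p)) := Ex_nonneg fun p => ind_nonneg _
    have b3 : 0 ≤ Ex (fun p : Fin N × Fin N => ind (Pr i l p)) := Ex_nonneg fun p => ind_nonneg _
    calc _ ≤ (2 / (N : ℝ) ^ 2) * (2 / (N : ℝ) ^ 2) * (2 / (N : ℝ) ^ 2) := by gcongr
      _ = 8 / (N : ℝ) ^ 6 := by
        field_simp
        ring
  · have hz : ∀ ω : Idx t N → Fin N × Fin N, ind ((i ≠ j ∧ j ≠ l ∧ i ≠ l) ∧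
        Pr i j (ω ⟨v, k1⟩) ∧ Pr j l (ω ⟨v, k2⟩) ∧ Pr i l (ω ⟨v, k3⟩)) ≤ 0 := by
      intro ω
      apply le_of_eq
      apply ind_of_not
      rintro ⟨⟨hij, hjl, hil⟩, h1, h2, h3⟩
      apply hd
      refine ⟨?_, ?_, ?_⟩
      · rintro rfl
        rcases h1 with h1 | h1 <;> rcases h2 with h2 | h2 <;> rw [h1] at h2 <;>
          rw [Prod.mk.injEq] at h2
        · exact hij h2.1
        · exact hil h2.1
        · exact hil h2.2
        · exact hij h2.2
      · rintro rfl
        rcases h1 with h1 | h1 <;> rcases h3 with h3 | h3 <;> rw [h1] at h3 <;>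
          rw [Prod.mk.injEq] at h3
        · exact hjl h3.2
        · exact hil h3.1
        · exact hil h3.2
        · exact hjl h3.1
      · rintro rfl
        rcases h2 with h2 | h2 <;> rcases h3 with h3 | h3 <;> rw [h2] at h3 <;>
          rw [Prod.mk.injEq] at h3
        · exact hij h3.1.symm
        · exact hjl h3.1
        · exact hjl h3.2
        · exact hij h3.2.symm
    refine (Ex_mono hz).trans ?_
    rw [Ex_const]
    positivity

/-- The expected number of bad edges. -/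
theorem Ex_B (hN : 1 ≤ N) (r : V → ℕ) {z : ℝ} (hz : 1 ≤ z) :
    Ex (fun ω : Idx t N → Fin N × Fin N => (B r ω : ℝ)) ≤
      (N : ℝ) * (∑ v, 2 * (t v : ℝ) * (z ^ r v)⁻¹ * Real.exp (2 * (z - 1) * t v)) +
        ∑ v, ((t v : ℝ) + 8 * (t v : ℝ) ^ 3) := by
  have : Nonempty (Fin N × Fin N) := ⟨(⟨0, hN⟩, ⟨0, hN⟩)⟩
  have hN' : (0 : ℝ) < N := by exact_mod_cast hN
  have h1 : ∀ ω : Idx t N → Fin N × Fin N, (B r ω : ℝ) ≤ ∑ e : Idx t N,
      (ind ((ω e).1 = (ω e).2) + ((∑ i, ind (Touch i (ω e) ∧ r e.1 < X ω e.1 i)) +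
        ∑ k2 : Fin (t e.1 * N), ∑ k3 : Fin (t e.1 * N), ∑ i : Fin N, ∑ j : Fin N, ∑ l : Fin N,
          ind ((i ≠ j ∧ j ≠ l ∧ i ≠ l) ∧
            Pr i j (ω e) ∧ Pr j l (ω ⟨e.1, k2⟩) ∧ Pr i l (ω ⟨e.1, k3⟩)))) := by
    intro ω
    have h2 : (B r ω : ℝ) = ∑ e : Idx t N, ind (Bad r ω e) := by
      unfold B ind
      rw [Finset.sum_boole]
    rw [h2]
    refine Finset.sum_le_sum fun e _ => ?_
    unfold Bad
    refine (ind_or_le _ _).trans (add_le_add le_rfl ?_)
    refine (ind_or_le _ _).trans (add_le_add (ind_exists_le _) ?_)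
    refine (ind_exists_le _).trans (Finset.sum_le_sum fun k2 _ => ?_)
    refine (ind_exists_le _).trans (Finset.sum_le_sum fun k3 _ => ?_)
    refine (ind_exists_le _).trans (Finset.sum_le_sum fun i _ => ?_)
    refine (ind_exists_le _).trans (Finset.sum_le_sum fun j _ => ?_)
    exact ind_exists_le _
  refine (Ex_mono h1).trans ?_
  rw [Ex_sum]
  have h3 : ∀ e : Idx t N, Ex (fun ω : Idx t N → Fin N × Fin N =>
      (ind ((ω e).1 = (ω e).2) + ((∑ i, ind (Touch i (ω e) ∧ r e.1 < X ω e.1 i)) +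
        ∑ k2 : Fin (t e.1 * N), ∑ k3 : Fin (t e.1 * N), ∑ i : Fin N, ∑ j : Fin N, ∑ l : Fin N,
          ind ((i ≠ j ∧ j ≠ l ∧ i ≠ l) ∧
            Pr i j (ω e) ∧ Pr j l (ω ⟨e.1, k2⟩) ∧ Pr i l (ω ⟨e.1, k3⟩))))) ≤
      1 / N + (2 * (z ^ r e.1)⁻¹ * Real.exp (2 * (z - 1) * t e.1) + 8 * (t e.1 : ℝ) ^ 2 / N) := by
    rintro ⟨v, k1⟩
    dsimp only
    rw [Ex_add, Ex_add]
    refine add_le_add (le_of_eq ?_) (add_le_add ?_ ?_)
    · rw [Ex_coord (E := Idx t N) (P := Fin N × Fin N) ⟨v, k1⟩ (fun p => ind (p.1 = p.2))]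
      exact Ex_loop hN
    · rw [Ex_sum]
      calc ∑ i : Fin N, Ex (fun ω : Idx t N → Fin N × Fin N =>
            ind (Touch i (ω ⟨v, k1⟩) ∧ r v < X ω v i))
          ≤ ∑ _i : Fin N, (z ^ r v)⁻¹ * (2 / N) * Real.exp (2 * (z - 1) * t v) :=
            Finset.sum_le_sum fun i _ => Ex_tail hN (r v) hz v k1 i
        _ = 2 * (z ^ r v)⁻¹ * Real.exp (2 * (z - 1) * t v) := by
            rw [Finset.sum_const, Finset.card_univ, Fintype.card_fin, nsmul_eq_mul]
            field_simp
    · rw [Ex_sum]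
      calc _ ≤ ∑ _k2 : Fin (t v * N), ∑ _k3 : Fin (t v * N), ∑ _i : Fin N, ∑ _j : Fin N,
            ∑ _l : Fin N, 8 / (N : ℝ) ^ 6 := by
            refine Finset.sum_le_sum fun k2 _ => ?_
            rw [Ex_sum]
            refine Finset.sum_le_sum fun k3 _ => ?_
            rw [Ex_sum]
            refine Finset.sum_le_sum fun i _ => ?_
            rw [Ex_sum]
            refine Finset.sum_le_sum fun j _ => ?_
            rw [Ex_sum]
            refine Finset.sum_le_sum fun l _ => ?_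
            exact Ex_triangle hN v k1 k2 k3 i j l
        _ = 8 * (t v : ℝ) ^ 2 / N := by
            simp only [Finset.sum_const, Finset.card_univ, Fintype.card_fin, nsmul_eq_mul]
            push_cast
            field_simp
  refine (Finset.sum_le_sum fun e _ => h3 e).trans ?_
  rw [Fintype.sum_sigma]
  apply le_of_eq
  rw [Finset.mul_sum, ← Finset.sum_add_distrib]
  refine Finset.sum_congr rfl fun v _ => ?_
  dsimp only
  rw [Finset.sum_const, Finset.card_univ, Fintype.card_fin, nsmul_eq_mul]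
  push_cast
  field_simp
  ring

end main

end Pool.Agent.Q220.CE
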