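import Mathlib
import Pool.Agent.Q220.CE.Bounds

set_option autoImplicit false

/-! From a lower bound for all graphs of maximum degree at most `D` to a lower bound that takes the
number of edges into account. -/

namespace Pool.Agent.Q220.CE

open Finset Classical

/-- All `K_m`-free graphs of maximum degree at most `D` have at least `exp(β n)` colourings. -/
def Low (m D q : ℕ) (β : ℝ) : Prop :=
  ∀ (W : Type) [Fintype W] (H : SimpleGraph W), H.CliqueFree m →
    (∀ w, (H.neighborSet w).ncard ≤ D) → Real.exp (β * Fintype.card W) ≤ (cnt H q : ℝ)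

theorem core_N {m D q N : ℕ} (hm : 3 ≤ m) (hq : 1 ≤ q) (hN : 1 ≤ N) {β : ℝ} (hlow : Low m D q β)
    {V : Type} [Fintype V] (G : SimpleGraph V) (hG : G.CliqueFree m)
    (hD : ∀ v, (G.neighborSet v).ncard ≤ D) (t : V → ℕ) {z lam : ℝ} (hz : 1 ≤ z) (h0 : 0 < lam)
    (h1 : lam ≤ 1) :
    Real.exp (β * ((Fintype.card V : ℝ) * N)) * Real.exp (Real.log lam *
      ((N : ℝ) * (∑ v, 2 * (t v : ℝ) * (z ^ (D - (G.neighborSet v).ncard))⁻¹ *
        Real.exp (2 * (z - 1) * t v)) + ∑ v, ((t v : ℝ) + 8 * (t v : ℝ) ^ 3))) ≤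
      (cnt G q : ℝ) ^ N * (1 - (1 - lam) / q) ^ ((∑ v, t v) * N) := by
  have : Nonempty (Fin N × Fin N) := ⟨(⟨0, hN⟩, ⟨0, hN⟩)⟩
  set r : V → ℕ := fun v => D - (G.neighborSet v).ncard with hr
  have hlogn : Real.log lam ≤ 0 := Real.log_nonpos h0.le h1
  have step1 : ∀ ω : Idx t N → Fin N × Fin N,
      Real.exp (β * ((Fintype.card V : ℝ) * N)) * Real.exp (Real.log lam * (B r ω : ℝ)) ≤
      ∑ F : Fin N → {f : V → Fin q // Proper G f}, lam ^ (K (fun i v => (F i).1 v) ω) := by
    intro ω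
    have h2 := cnt_lift_le G r ω q lam h0 h1
    have h3 := hlow (V × Fin N) (lift G r ω) (lift_cliqueFree G r ω hm hG) (fun w => by
      refine (lift_degree G r ω w).trans ?_
      have := hD w.1
      simp only [hr]
      omega)
    have h4 : Real.exp (Real.log lam * (B r ω : ℝ)) = lam ^ (B r ω) := by
      rw [mul_comm, Real.exp_nat_mul, Real.exp_log h0]
    rw [h4]
    refine le_trans ?_ h2
    refine mul_le_mul_of_nonneg_right ?_ (pow_nonneg h0.le _)
    refine le_trans (le_of_eq ?_) h3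
    rw [Fintype.card_prod, Fintype.card_fin]
    push_cast
    rfl
  have step2 := Ex_mono step1
  rw [Ex_mul_left, Ex_sum] at step2
  have step3 : ∑ F : Fin N → {f : V → Fin q // Proper G f},
      Ex (fun ω : Idx t N → Fin N × Fin N => lam ^ (K (fun i v => (F i).1 v) ω)) ≤
      (cnt G q : ℝ) ^ N * (1 - (1 - lam) / q) ^ ((∑ v, t v) * N) := by
    calc _ ≤ ∑ _F : Fin N → {f : V → Fin q // Proper G f},
          (1 - (1 - lam) / (q : ℝ)) ^ ((∑ v, t v) * N) :=
          Finset.sum_le_sum fun F _ => Ex_K hN hq (fun i v => (F i).1 v) h0.le h1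
      _ = _ := by
          rw [Finset.sum_const, Finset.card_univ, nsmul_eq_mul, Fintype.card_fun, Fintype.card_fin]
          unfold cnt
          rw [Nat.card_eq_fintype_card]
          push_cast
          rfl
  refine le_trans ?_ (step2.trans step3)
  refine mul_le_mul_of_nonneg_left ?_ (Real.exp_pos _).le
  refine le_trans ?_ (exp_Ex_le _)
  rw [Ex_mul_left]
  apply Real.exp_le_exp.2
  exact mul_le_mul_of_nonpos_left (Ex_B hN r hz) hlogn

/-- The limit of `core_N`. -/
theorem core_lim {m D q : ℕ} (hm : 3 ≤ m) (hq : 1 ≤ q) {β : ℝ} (hlow : Low m D q β)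
    {V : Type} [Fintype V] (G : SimpleGraph V) (hG : G.CliqueFree m)
    (hD : ∀ v, (G.neighborSet v).ncard ≤ D) (t : V → ℕ) {z lam : ℝ} (hz : 1 ≤ z) (h0 : 0 < lam)
    (h1 : lam ≤ 1) :
    β * Fintype.card V + Real.log lam *
      (∑ v, 2 * (t v : ℝ) * (z ^ (D - (G.neighborSet v).ncard))⁻¹ *
        Real.exp (2 * (z - 1) * t v)) - (∑ v, (t v : ℝ)) * Real.log (1 - (1 - lam) / q) ≤
      Real.log (cnt G q) := by
  have hq' : (1 : ℝ) ≤ q := by exact_mod_cast hq
  have hlogn : Real.log lam ≤ 0 := Real.log_nonpos h0.le h1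
  have hrho : 0 < 1 - (1 - lam) / (q : ℝ) := by
    have h2 : (1 - lam) / (q : ℝ) ≤ (1 - lam) := div_le_self (by linarith) hq'
    linarith
  have hc : 0 < (cnt G q : ℝ) := lt_of_lt_of_le (Real.exp_pos _) (hlow V G hG hD)
  set S : ℝ := ∑ v, 2 * (t v : ℝ) * (z ^ (D - (G.neighborSet v).ncard))⁻¹ *
        Real.exp (2 * (z - 1) * t v) with hS
  set C : ℝ := ∑ v, ((t v : ℝ) + 8 * (t v : ℝ) ^ 3) with hC
  set M : ℝ := ∑ v, (t v : ℝ) with hM
  have key : ∀ N : ℕ, 1 ≤ N → (N : ℝ) * (β * Fintype.card V + Real.log lam * S -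
      M * Real.log (1 - (1 - lam) / q) - Real.log (cnt G q)) ≤ - (Real.log lam) * C := by
    intro N hN
    have h := core_N hm hq hN hlow G hG hD t hz h0 h1
    rw [← hS, ← hC, ← Real.exp_add] at h
    have h2 := Real.log_le_log (Real.exp_pos _) h
    rw [Real.log_exp, Real.log_mul (pow_ne_zero _ hc.ne') (pow_ne_zero _ hrho.ne'), Real.log_pow,
      Real.log_pow] at h2
    push_cast at h2
    rw [← hM] at h2
    nlinarith [h2]
  by_contra hcon
  rw [not_le] at hcon
  set x : ℝ := β * Fintype.card V + Real.log lam * S -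
      M * Real.log (1 - (1 - lam) / q) - Real.log (cnt G q) with hx
  have hx0 : 0 < x := by rw [hx]; linarith
  obtain ⟨N, hN⟩ := exists_nat_gt (max 1 (- (Real.log lam) * C / x))
  have hN1 : (1 : ℝ) < N := (le_max_left _ _).trans_lt hN
  have hN2 : - (Real.log lam) * C / x < N := (le_max_right _ _).trans_lt hN
  have h3 := key N (by exact_mod_cast hN1.le)
  rw [div_lt_iff₀ hx0] at hN2
  linarith

/-- The loss for each vertex. -/
noncomputable def theta (D s q : ℕ) : ℝ :=
  ((s : ℝ) + 2) / (2 * ((q : ℝ) - 1)) + D * Real.log D * Real.exp (-(s : ℝ) ^ 2 / (2 * D))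

/-- The number of edges, as half of the sum of the degrees. -/
noncomputable def half {V : Type} [Fintype V] (G : SimpleGraph V) : ℝ :=
  (∑ v, ((G.neighborSet v).ncard : ℝ)) / 2

theorem tail_le {D s r t : ℕ} (hD : 1 ≤ D) (hr : r ≤ D) (ht : 2 * t + s ≤ r) :
    ((1 + (s : ℝ) / D) ^ r)⁻¹ * Real.exp (2 * ((1 + (s : ℝ) / D) - 1) * t) ≤
      Real.exp (-(s : ℝ) ^ 2 / (2 * D)) := by
  have hD' : (0 : ℝ) < D := by exact_mod_cast hD
  set x : ℝ := (s : ℝ) / D with hx
  have hx0 : 0 ≤ x := by positivity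
  have h1 : x - x ^ 2 / 2 ≤ Real.log (1 + x) := by
    refine le_trans ?_ (Real.le_log_one_add_of_nonneg hx0)
    rw [le_div_iff₀ (by linarith)]
    nlinarith [mul_nonneg hx0 (mul_nonneg hx0 hx0)]
  have h2 : ((1 + x) ^ r)⁻¹ = Real.exp (-(r * Real.log (1 + x))) := by
    rw [Real.exp_neg, Real.exp_nat_mul, Real.exp_log (by linarith)]
  rw [h2, ← Real.exp_add]
  apply Real.exp_le_exp.2
  have hr' : (r : ℝ) ≤ D := by exact_mod_cast hr
  have ht' : 2 * (t : ℝ) + s ≤ r := by exact_mod_cast ht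
  have h3 : (r : ℝ) * (x - x ^ 2 / 2) ≤ r * Real.log (1 + x) :=
    mul_le_mul_of_nonneg_left h1 (Nat.cast_nonneg _)
  have h4 : 2 * (1 + x - 1) * (t : ℝ) ≤ x * (r - s) := by nlinarith
  have h5 : (r : ℝ) * x ^ 2 ≤ D * x ^ 2 := mul_le_mul_of_nonneg_right hr' (sq_nonneg _)
  have h6 : (D : ℝ) * x ^ 2 = s ^ 2 / D := by
    rw [hx]; field_simp
  have h7 : x * (s : ℝ) = s ^ 2 / D := by
    rw [hx]; field_simp
  have h8 : -(s : ℝ) ^ 2 / (2 * D) = (s ^ 2 / D) / 2 - s ^ 2 / D := by
    field_simp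
    ring
  rw [h8]
  nlinarith

theorem core {m D q s : ℕ} (hm : 3 ≤ m) (hq : 2 ≤ q) (hD2 : 1 ≤ D) {β : ℝ} (hlow : Low m D q β)
    {V : Type} [Fintype V] (G : SimpleGraph V) (hG : G.CliqueFree m)
    (hD : ∀ v, (G.neighborSet v).ncard ≤ D) :
    β * Fintype.card V - Real.log (1 - 1 / (q : ℝ)) * ((Fintype.card V : ℝ) * D / 2 - half G) -
      theta D s q * Fintype.card V ≤ Real.log (cnt G q) := by
  have hq' : (2 : ℝ) ≤ q := by exact_mod_cast hq
  have hD' : (1 : ℝ) ≤ D := by exact_mod_cast hD2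
  have hD0 : (0 : ℝ) < D := by linarith
  set n : ℝ := (Fintype.card V : ℝ) with hn
  have hn0 : 0 ≤ n := Nat.cast_nonneg _
  set t : V → ℕ := fun v => (D - (G.neighborSet v).ncard - s) / 2 with ht
  have h := core_lim hm (by omega) hlow G hG hD t (z := 1 + (s : ℝ) / D) (lam := 1 / (D : ℝ))
    (by
      have : 0 ≤ (s : ℝ) / D := by positivity
      linarith) (by positivity) (by rw [div_le_one hD0]; exact hD')
  refine le_trans ?_ h
  rw [← hn]
  -- the three sums
  set ell : ℝ := - Real.log (1 - 1 / (q : ℝ)) with hell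
  have hq1 : 0 < (q : ℝ) - 1 := by linarith
  have hone : 0 < 1 - 1 / (q : ℝ) := by
    rw [sub_pos, div_lt_one (by linarith)]; linarith
  have hell0 : 0 ≤ ell := by
    rw [hell]
    have : Real.log (1 - 1 / (q : ℝ)) ≤ 0 := by
      apply Real.log_nonpos hone.le
      have : 0 ≤ 1 / (q : ℝ) := by positivity
      linarith
    linarith
  have hell1 : ell ≤ 1 / ((q : ℝ) - 1) := by
    have h1 := Real.one_sub_inv_le_log_of_pos hone
    have h2 : (1 - 1 / (q : ℝ))⁻¹ = 1 + 1 / ((q : ℝ) - 1) := by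
      have : (q : ℝ) ≠ 0 := by linarith
      field_simp
      ring
    rw [h2] at h1
    rw [hell]
    linarith
  have hlog : Real.log (1 - (1 - 1 / (D : ℝ)) / q) ≤ - ell + (1 / D) / ((q : ℝ) - 1) := by
    have h2 : 1 - (1 - 1 / (D : ℝ)) / q = (1 - 1 / (q : ℝ)) * (1 + (1 / D) / ((q : ℝ) - 1)) := by
      have : (q : ℝ) ≠ 0 := by linarith
      field_simp
      ring
    have h3 : 0 ≤ (1 / (D : ℝ)) / ((q : ℝ) - 1) := by positivity
    rw [h2, Real.log_mul hone.ne' (by linarith)]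
    have h4 := Real.log_le_sub_one_of_pos (x := 1 + (1 / (D : ℝ)) / ((q : ℝ) - 1)) (by linarith)
    rw [hell]
    linarith
  -- the bad edges
  have hS : (∑ v, 2 * (t v : ℝ) * ((1 + (s : ℝ) / D) ^ (D - (G.neighborSet v).ncard))⁻¹ *
        Real.exp (2 * ((1 + (s : ℝ) / D) - 1) * t v)) ≤
      n * (D * Real.exp (-(s : ℝ) ^ 2 / (2 * D))) := by
    calc _ ≤ ∑ _v : V, D * Real.exp (-(s : ℝ) ^ 2 / (2 * D)) := by
          refine Finset.sum_le_sum fun v _ => ?_
          by_cases h0 : t v = 0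
          · rw [h0]
            simp only [Nat.cast_zero, mul_zero, zero_mul]
            positivity
          · have h1 : 2 * t v + s ≤ D - (G.neighborSet v).ncard := by
              simp only [ht] at h0 ⊢
              omega
            have h2 := tail_le hD2 (Nat.sub_le D (G.neighborSet v).ncard) h1
            have h3 : 2 * (t v : ℝ) ≤ D := by
              have : 2 * t v ≤ D := by omega
              exact_mod_cast this
            rw [mul_assoc]
            exact mul_le_mul h3 h2 (by positivity) (by positivity)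
      _ = _ := by
          rw [Finset.sum_const, Finset.card_univ, nsmul_eq_mul]
  have hlogD : 0 ≤ Real.log D := Real.log_nonneg hD'
  have hL : Real.log (1 / (D : ℝ)) = - Real.log D := by
    rw [one_div, Real.log_inv]
  have hterm : - (n * (D * Real.log D * Real.exp (-(s : ℝ) ^ 2 / (2 * D)))) ≤
      Real.log (1 / (D : ℝ)) *
      (∑ v, 2 * (t v : ℝ) * ((1 + (s : ℝ) / D) ^ (D - (G.neighborSet v).ncard))⁻¹ *
        Real.exp (2 * ((1 + (s : ℝ) / D) - 1) * t v)) := by
    rw [hL]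
    have := mul_le_mul_of_nonneg_left hS hlogD
    nlinarith [this]
  -- the number of random edges
  have hM1 : n * D / 2 - half G - n * (s + 1) / 2 ≤ ∑ v, (t v : ℝ) := by
    have h1 : ∀ v, ((D : ℝ) - (G.neighborSet v).ncard - (s + 1)) / 2 ≤ (t v : ℝ) := by
      intro v
      have h2 : D ≤ 2 * t v + (G.neighborSet v).ncard + (s + 1) := by
        simp only [ht]
        omega
      have h3 : (D : ℝ) ≤ 2 * t v + (G.neighborSet v).ncard + (s + 1) := by exact_mod_cast h2
      linarith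
    have h2 := Finset.sum_le_sum fun v (_ : v ∈ Finset.univ) => h1 v
    refine le_trans (le_of_eq ?_) h2
    unfold half
    rw [← Finset.sum_div, Finset.sum_sub_distrib, Finset.sum_sub_distrib, Finset.sum_const,
      Finset.sum_const, Finset.card_univ, nsmul_eq_mul, nsmul_eq_mul, ← hn]
    ring
  have hM2 : ∑ v, (t v : ℝ) ≤ n * D / 2 := by
    calc _ ≤ ∑ _v : V, (D : ℝ) / 2 := by
          refine Finset.sum_le_sum fun v _ => ?_
          have h3 : 2 * t v ≤ D := by
            simp only [ht]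
            omega
          have h4 : 2 * (t v : ℝ) ≤ D := by exact_mod_cast h3
          linarith
      _ = _ := by
          rw [Finset.sum_const, Finset.card_univ, nsmul_eq_mul]
          ring
  set M : ℝ := ∑ v, (t v : ℝ) with hM
  have hM0 : 0 ≤ M := Finset.sum_nonneg fun v _ => Nat.cast_nonneg _
  have hterm2 : ell * (n * D / 2 - half G) - n * ((s + 2) / (2 * ((q : ℝ) - 1))) ≤
      - (M * Real.log (1 - (1 - 1 / (D : ℝ)) / q)) := by
    have h1 : M * Real.log (1 - (1 - 1 / (D : ℝ)) / q) ≤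
        M * (- ell + (1 / D) / ((q : ℝ) - 1)) := mul_le_mul_of_nonneg_left hlog hM0
    have h2 : M * ((1 / (D : ℝ)) / ((q : ℝ) - 1)) ≤ n * (1 / (2 * ((q : ℝ) - 1))) := by
      calc M * ((1 / (D : ℝ)) / ((q : ℝ) - 1)) ≤ (n * D / 2) * ((1 / (D : ℝ)) / ((q : ℝ) - 1)) :=
            mul_le_mul_of_nonneg_right hM2 (by positivity)
        _ = _ := by field_simp
    have h3 : ell * (n * D / 2 - half G - n * (s + 1) / 2) ≤ ell * M :=
      mul_le_mul_of_nonneg_left hM1 hell0
    have h4 : ell * (n * (s + 1) / 2) ≤ n * ((s + 1) / (2 * ((q : ℝ) - 1))) := by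
      calc ell * (n * (s + 1) / 2) ≤ (1 / ((q : ℝ) - 1)) * (n * (s + 1) / 2) :=
            mul_le_mul_of_nonneg_right hell1 (by positivity)
        _ = _ := by field_simp
    have h5 : n * ((s + 2) / (2 * ((q : ℝ) - 1))) = n * ((s + 1) / (2 * ((q : ℝ) - 1))) +
        n * (1 / (2 * ((q : ℝ) - 1))) := by ring
    rw [h5]
    nlinarith [h1, h2, h3, h4]
  have hth : theta D s q * n = n * ((s + 2) / (2 * ((q : ℝ) - 1))) +
      n * (D * Real.log D * Real.exp (-(s : ℝ) ^ 2 / (2 * D))) := by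
    unfold theta
    ring
  rw [hth]
  have hell' : Real.log (1 - 1 / (q : ℝ)) = - ell := by rw [hell]; ring
  rw [hell']
  linarith

end Pool.Agent.Q220.CE
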