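import Mathlib
import Pool.Agent.Q220.CE.Core

set_option autoImplicit false

/-! Regular graphs suffice; conversions; greedy colouring. -/

namespace Pool.Agent.Q220.CE

open Finset Classical

/-- Two copies, deficient vertices joined. -/
def dbl {W : Type} (D : ℕ) (H : SimpleGraph W) : SimpleGraph (W × Bool) where
  Adj x y := (x.2 = y.2 ∧ H.Adj x.1 y.1) ∨
    (x.1 = y.1 ∧ x.2 ≠ y.2 ∧ (H.neighborSet x.1).ncard < D)
  symm := ⟨by
    rintro ⟨u, i⟩ ⟨v, j⟩ h
    rcases h with ⟨h1, h2⟩ | ⟨h1, h2, h3⟩
    · exact Or.inl ⟨h1.symm, h2.symm⟩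
    · dsimp at h1 h2 h3
      subst h1
      exact Or.inr ⟨rfl, Ne.symm h2, h3⟩⟩
  loopless := ⟨by
    rintro ⟨u, i⟩ h
    rcases h with ⟨h1, h2⟩ | ⟨h1, h2, h3⟩
    · exact H.loopless.irrefl _ h2
    · exact h2 rfl⟩

theorem dbl_adj {W : Type} (D : ℕ) (H : SimpleGraph W) (x y : W × Bool) :
    (dbl D H).Adj x y ↔ (x.2 = y.2 ∧ H.Adj x.1 y.1) ∨
    (x.1 = y.1 ∧ x.2 ≠ y.2 ∧ (H.neighborSet x.1).ncard < D) := Iff.rfl

theorem dbl_cliqueFree {W : Type} (D : ℕ) (H : SimpleGraph W) {m : ℕ} (hm : 3 ≤ m)
    (hG : H.CliqueFree m) : (dbl D H).CliqueFree m := by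
  intro s hs
  by_cases hall : ∀ x ∈ s, ∀ y ∈ s, x.2 = y.2
  · apply hG (s.image Prod.fst)
    rw [SimpleGraph.isNClique_iff] at hs ⊢
    obtain ⟨hc, hcard⟩ := hs
    constructor
    · intro a ha b hb hab
      rw [Finset.mem_coe, Finset.mem_image] at ha hb
      obtain ⟨x, hx, rfl⟩ := ha
      obtain ⟨y, hy, rfl⟩ := hb
      have hxy : x ≠ y := fun h => hab (by rw [h])
      have h := hc (Finset.mem_coe.2 hx) (Finset.mem_coe.2 hy) hxy
      rw [dbl_adj] at h
      rcases h with h | h
      · exact h.2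
      · exact absurd h.1 hab
    · rw [Finset.card_image_of_injOn, hcard]
      intro x hx y hy hxy
      exact Prod.ext hxy (hall x hx y hy)
  · push Not at hall
    obtain ⟨x, hx, y, hy, hxy⟩ := hall
    rw [SimpleGraph.isNClique_iff] at hs
    obtain ⟨hc, hcard⟩ := hs
    have hne : x ≠ y := fun h => hxy (by rw [h])
    obtain ⟨w, hw, hwx, hwy⟩ : ∃ w ∈ s, w ≠ x ∧ w ≠ y := by
      by_contra hcon
      push Not at hcon
      have : s ⊆ {x, y} := by
        intro w hw
        rw [Finset.mem_insert, Finset.mem_singleton]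
        by_cases h : w = x
        · exact Or.inl h
        · exact Or.inr (hcon w hw h)
      have h2 := (Finset.card_le_card this).trans Finset.card_le_two
      omega
    have h1 := hc (Finset.mem_coe.2 hx) (Finset.mem_coe.2 hy) hne
    have h2 := hc (Finset.mem_coe.2 hx) (Finset.mem_coe.2 hw) hwx.symm
    have h3 := hc (Finset.mem_coe.2 hy) (Finset.mem_coe.2 hw) hwy.symm
    rw [dbl_adj] at h1 h2 h3
    rcases h1 with h1 | ⟨h1, -, -⟩
    · exact hxy h1.1
    rcases h2 with ⟨h2, h2'⟩ | ⟨h2, h2', -⟩
    · rcases h3 with ⟨h3, h3'⟩ | ⟨h3, h3', -⟩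
      · exact hxy (h2.trans h3.symm)
      · rw [h1, h3] at h2'
        exact H.loopless.irrefl _ h2'
    · rcases h3 with ⟨h3, h3'⟩ | ⟨h3, h3', -⟩
      · rw [← h1, h2] at h3'
        exact H.loopless.irrefl _ h3'
      · -- three distinct Booleans
        revert h2' h3' hxy
        rcases x.2 with _ | _ <;> rcases y.2 with _ | _ <;> rcases w.2 with _ | _ <;> simp

theorem dbl_degree {W : Type} [Finite W] (D : ℕ) (H : SimpleGraph W) (x : W × Bool) :
    ((dbl D H).neighborSet x).ncard = (H.neighborSet x.1).ncard +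
      if (H.neighborSet x.1).ncard < D then 1 else 0 := by
  obtain ⟨v, i⟩ := x
  dsimp only
  have hset : (dbl D H).neighborSet (v, i) = (fun u => (u, i)) '' (H.neighborSet v) ∪
      (if (H.neighborSet v).ncard < D then {(v, !i)} else ∅) := by
    ext ⟨u, j⟩
    rw [SimpleGraph.mem_neighborSet, dbl_adj]
    constructor
    · rintro (⟨h1, h2⟩ | ⟨h1, h2, h3⟩)
      · dsimp at h1 h2
        subst h1
        exact Or.inl ⟨u, h2, rfl⟩
      · dsimp at h1 h2 h3
        subst h1
        right
        rw [if_pos h3, Set.mem_singleton_iff]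
        congr 1
        revert h2
        cases i <;> cases j <;> simp
    · rintro (⟨u', h1, h2⟩ | h)
      · rw [Prod.mk.injEq] at h2
        obtain ⟨rfl, rfl⟩ := h2
        exact Or.inl ⟨rfl, h1⟩
      · by_cases hlt : (H.neighborSet v).ncard < D
        · rw [if_pos hlt, Set.mem_singleton_iff, Prod.mk.injEq] at h
          obtain ⟨rfl, rfl⟩ := h
          right
          refine ⟨rfl, ?_, hlt⟩
          cases i <;> simp
        · rw [if_neg hlt] at h
          exact absurd h (Set.notMem_empty _)
  rw [hset, Set.ncard_union_eq]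
  · congr 1
    · apply Set.ncard_image_of_injective
      intro a b h
      exact congrArg Prod.fst h
    · split_ifs
      · exact Set.ncard_singleton _
      · exact Set.ncard_empty _
  · rw [Set.disjoint_left]
    rintro ⟨u, j⟩ ⟨u', h1, h2⟩ h
    rw [Prod.mk.injEq] at h2
    obtain ⟨rfl, rfl⟩ := h2
    split_ifs at h
    · rw [Set.mem_singleton_iff, Prod.mk.injEq] at h
      have := h.2
      revert this
      cases i <;> simp
    · exact h

theorem cnt_dbl {W : Type} [Finite W] (D : ℕ) (H : SimpleGraph W) (q : ℕ) :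
    cnt (dbl D H) q ≤ (cnt H q) ^ 2 := by
  have h1 : (cnt H q) ^ 2 = Nat.card ({f : W → Fin q // Proper H f} × {f : W → Fin q // Proper H f}) := by
    rw [Nat.card_prod, sq]
    rfl
  rw [h1]
  unfold cnt
  refine Nat.card_le_card_of_injective (fun C => (⟨fun v => C.1 (v, false), fun u v h =>
    C.2 _ _ (Or.inl ⟨rfl, h⟩)⟩, ⟨fun v => C.1 (v, true), fun u v h =>
    C.2 _ _ (Or.inl ⟨rfl, h⟩)⟩)) ?_
  intro C C' h
  have e1 := congrArg (fun p => p.1.1) h
  have e2 := congrArg (fun p => p.2.1) h
  apply Subtype.ext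
  funext ⟨v, b⟩
  cases b
  · exact congrFun e1 v
  · exact congrFun e2 v

/-- All `D`-regular `K_m`-free graphs have at least `exp(β n)` colourings. -/
def Reg (m D q : ℕ) (β : ℝ) : Prop :=
  ∀ (W : Type) [Fintype W] (H : SimpleGraph W), H.CliqueFree m →
    (∀ w, (H.neighborSet w).ncard = D) → Real.exp (β * Fintype.card W) ≤ (cnt H q : ℝ)

theorem low_of_reg {m D q : ℕ} (hm : 3 ≤ m) {β : ℝ} (h : Reg m D q β) : Low m D q β := by
  have key : ∀ k : ℕ, ∀ (W : Type) [Fintype W] (H : SimpleGraph W), H.CliqueFree m →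
      (∀ w, (H.neighborSet w).ncard ≤ D ∧ D ≤ (H.neighborSet w).ncard + k) →
      Real.exp (β * Fintype.card W) ≤ (cnt H q : ℝ) := by
    intro k
    induction k with
    | zero =>
      intro W _ H hH hd
      exact h W H hH fun w => le_antisymm (hd w).1 (by simpa using (hd w).2)
    | succ k ih =>
      intro W _ H hH hd
      have h1 := ih (W × Bool) (dbl D H) (dbl_cliqueFree D H hm hH) (by
        intro w
        rw [dbl_degree]
        have := hd w.1
        split_ifs with hlt <;> omega)
      have h2 : (cnt (dbl D H) q : ℝ) ≤ (cnt H q : ℝ) ^ 2 := by exact_mod_cast cnt_dbl D H q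
      have h3 : Real.exp (β * Fintype.card (W × Bool)) = (Real.exp (β * Fintype.card W)) ^ 2 := by
        rw [← Real.exp_nat_mul]
        congr 1
        rw [Fintype.card_prod, Fintype.card_bool]
        push_cast
        ring
      rw [h3] at h1
      exact le_of_sq_le_sq (h1.trans h2) (Nat.cast_nonneg _)
  intro W _ H hH hd
  refine key D W H hH fun w => ⟨hd w, by omega⟩

theorem cnt_eq {V : Type} [Finite V] (G : SimpleGraph V) (q : ℕ) :
    cnt G q = Nat.card (G.Coloring (Fin q)) := by
  unfold cnt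
  refine Nat.card_congr ⟨fun f => SimpleGraph.Coloring.mk f.1 (fun {a b} h => f.2 a b h),
    fun C => ⟨fun v => C v, fun u v h => C.valid h⟩, fun f => ?_, fun C => ?_⟩
  · rfl
  · rfl

theorem neighborSet_ncard {V : Type} [Fintype V] (G : SimpleGraph V) [DecidableRel G.Adj] (v : V) :
    (G.neighborSet v).ncard = G.degree v := by
  rw [Set.ncard_eq_toFinset_card']
  rfl

theorem half_eq {V : Type} [Fintype V] (G : SimpleGraph V) [DecidableRel G.Adj] :
    half G = (G.edgeFinset.card : ℝ) := by
  unfold half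
  have h := G.sum_degrees_eq_twice_card_edges
  have h2 : ∑ v, ((G.neighborSet v).ncard : ℝ) = 2 * (G.edgeFinset.card : ℝ) := by
    have : ∀ v, ((G.neighborSet v).ncard : ℝ) = (G.degree v : ℝ) := by
      intro v
      rw [neighborSet_ncard]
    simp only [this]
    exact_mod_cast h
  rw [h2]
  ring

/-- Greedy colouring. -/
theorem greedy {V : Type} [Fintype V] (G : SimpleGraph V) {d : ℕ}
    (hd : ∀ v, (G.neighborSet v).ncard ≤ d) : G.Colorable (d + 1) := by
  have key : ∀ S : Finset V, ∃ f : V → Fin (d + 1), ∀ u ∈ S, ∀ v ∈ S, G.Adj u v → f u ≠ f v := by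
    intro S
    induction S using Finset.induction_on with
    | empty => exact ⟨fun _ => 0, fun u hu => absurd hu (Finset.notMem_empty _)⟩
    | insert a S ha ih =>
      obtain ⟨f, hf⟩ := ih
      obtain ⟨c, hc⟩ : ∃ c : Fin (d + 1), c ∉ f '' (G.neighborSet a) := by
        by_contra hcon
        push Not at hcon
        have h1 : (Set.univ : Set (Fin (d + 1))) ⊆ f '' (G.neighborSet a) := fun c _ => hcon c
        have h2 := Set.ncard_le_ncard h1 (Set.toFinite _)
        rw [Set.ncard_univ, Nat.card_eq_fintype_card, Fintype.card_fin] at h2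
        have h3 := Set.ncard_image_le (f := f) (Set.toFinite (G.neighborSet a))
        have h4 := hd a
        omega
      refine ⟨Function.update f a c, ?_⟩
      intro u hu v hv huv
      have hne := huv.ne
      rw [Finset.mem_insert] at hu hv
      by_cases hua : u = a
      · subst hua
        have hvu : v ≠ u := hne.symm
        rw [Function.update_self, Function.update_of_ne hvu]
        intro h
        exact hc ⟨v, huv, h.symm⟩
      · by_cases hva : v = a
        · subst hva
          rw [Function.update_self, Function.update_of_ne hua]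
          intro h
          exact hc ⟨u, huv.symm, h⟩
        · rw [Function.update_of_ne hua, Function.update_of_ne hva]
          exact hf u (hu.resolve_left hua) v (hv.resolve_left hva) huv
  obtain ⟨f, hf⟩ := key Finset.univ
  exact ⟨SimpleGraph.Coloring.mk f (fun {a b} h => hf a (Finset.mem_univ _) b (Finset.mem_univ _) h)⟩

end Pool.Agent.Q220.CE
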