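import Mathlib
import Pool.Agent.Q220.CE.Reg

set_option autoImplicit false

/-! The asymptotic part. -/

namespace Pool.Agent.Q220.CE

open Filter Topology

theorem log_le_two_sqrt {x : ℝ} (hx : 0 ≤ x) : Real.log x ≤ 2 * Real.sqrt x := by
  have h := Real.log_le_rpow_div hx (ε := 1 / 2) (by norm_num)
  rw [← Real.sqrt_eq_rpow] at h
  linarith

/-- `κ x / log x` tends to infinity. -/
theorem g_large {κ : ℝ} (hκ : 0 < κ) (a : ℝ) :
    ∃ D0 : ℕ, 3 ≤ D0 ∧ ∀ D : ℕ, D0 ≤ D → a < κ * (D / Real.log D) := by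
  obtain ⟨M, hM⟩ := exists_nat_gt ((2 * a / κ) ^ 2)
  refine ⟨max M 3, le_max_right _ _, ?_⟩
  intro D hD
  have h3 : (3 : ℝ) ≤ D := by exact_mod_cast (le_max_right _ _).trans hD
  have h1 : (M : ℝ) ≤ D := by exact_mod_cast (le_max_left _ _).trans hD
  have hD0 : (0 : ℝ) < D := by linarith
  have hlog : 0 < Real.log D := Real.log_pos (by linarith)
  have hs0 : 0 < Real.sqrt D := Real.sqrt_pos.2 hD0
  have h2 : 2 * a / κ < Real.sqrt D := by
    apply Real.lt_sqrt_of_sq_lt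
    linarith
  have h4 : Real.sqrt D / 2 ≤ D / Real.log D := by
    rw [div_le_div_iff₀ (by norm_num) hlog]
    have h5 := log_le_two_sqrt hD0.le
    calc Real.sqrt D * Real.log D ≤ Real.sqrt D * (2 * Real.sqrt D) :=
          mul_le_mul_of_nonneg_left h5 hs0.le
      _ = D * 2 := by
          rw [show Real.sqrt D * (2 * Real.sqrt D) = 2 * (Real.sqrt D * Real.sqrt D) by ring,
            Real.mul_self_sqrt hD0.le]
          ring
  have h6 : a < κ * (Real.sqrt D / 2) := by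
    rw [div_lt_iff₀ hκ] at h2
    linarith
  exact h6.trans_le (mul_le_mul_of_nonneg_left h4 hκ.le)

/-- The choice of `D`. -/
theorem select {κ : ℝ} (hκ : 0 < κ) :
    ∃ D0 : ℕ, 3 ≤ D0 ∧ ∀ Δ : ℕ, D0 ≤ Δ → ∀ q : ℕ, κ * (Δ / Real.log Δ) ≤ q →
      ∃ D : ℕ, Δ ≤ D ∧ κ * (D / Real.log D) ≤ q ∧ (q : ℝ) < κ * (D / Real.log D) + 1 ∧
        (q : ℝ) < κ * (((D : ℝ) + 1) / Real.log D) := by
  obtain ⟨M, hM⟩ := exists_nat_gt (Real.exp κ)
  refine ⟨max M 3, le_max_right _ _, ?_⟩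
  intro Δ hΔ q hq
  have hex : ∃ D : ℕ, Δ ≤ D ∧ (q : ℝ) < κ * (((D + 1 : ℕ) : ℝ) / Real.log ((D + 1 : ℕ) : ℝ)) := by
    obtain ⟨D1, -, hD1⟩ := g_large hκ q
    exact ⟨max Δ D1, le_max_left _ _, hD1 _ ((le_max_right _ _).trans (Nat.le_succ _))⟩
  classical
  obtain ⟨h1, h2⟩ := Nat.find_spec hex
  set D := Nat.find hex with hD
  have h3 : κ * (D / Real.log D) ≤ q := by
    by_cases h : D = Δ
    · rw [h]; exact hq
    · have h4 : Δ ≤ D - 1 := by omega
      have h5 := Nat.find_min hex (m := D - 1) (by omega)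
      rw [not_and, not_lt] at h5
      have h6 := h5 h4
      rw [Nat.sub_add_cancel (by omega)] at h6
      exact h6
  have hD3 : (3 : ℝ) ≤ D := by exact_mod_cast ((le_max_right _ _).trans hΔ).trans h1
  have hDM : (M : ℝ) ≤ D := by exact_mod_cast ((le_max_left _ _).trans hΔ).trans h1
  have hlogκ : κ ≤ Real.log D := by
    rw [Real.le_log_iff_exp_le (by linarith)]
    linarith
  have hlog : 0 < Real.log D := by linarith
  have h4 : (q : ℝ) < κ * (((D : ℝ) + 1) / Real.log D) := by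
    refine h2.trans_le (mul_le_mul_of_nonneg_left ?_ hκ.le)
    push_cast
    refine div_le_div_of_nonneg_left (by linarith) hlog ?_
    exact Real.log_le_log (by linarith) (by linarith)
  refine ⟨D, h1, h3, ?_, h4⟩
  refine h4.trans_le ?_
  rw [add_div, mul_add]
  have : κ * (1 / Real.log D) ≤ 1 := by
    rw [mul_one_div, div_le_one hlog]
    exact hlogκ
  linarith

/-- The loss tends to zero. -/
theorem theta_small {κ δ : ℝ} (hκ : 0 < κ) (hδ : 0 < δ) :
    ∃ D0 : ℕ, 3 ≤ D0 ∧ ∀ D : ℕ, D0 ≤ D → ∀ q : ℕ, κ * (D / Real.log D) ≤ q →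
      ∃ s : ℕ, theta D s q ≤ δ := by
  have t1 : Tendsto (fun x : ℝ => Real.log x / x ^ (1 / 4 : ℝ)) atTop (𝓝 0) :=
    (isLittleO_log_rpow_atTop (by norm_num)).tendsto_div_nhds_zero
  have t2 : Tendsto (fun x : ℝ => (Real.sqrt x / 2) ^ 4 * Real.exp (-(Real.sqrt x / 2))) atTop
      (𝓝 0) := by
    have h1 : Tendsto (fun x : ℝ => Real.sqrt x / 2) atTop atTop :=
      (Real.tendsto_sqrt_atTop).atTop_div_const (by norm_num)
    exact (Real.tendsto_pow_mul_exp_neg_atTop_nhds_zero 4).comp h1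
  have e1 := (t1.comp tendsto_natCast_atTop_atTop).eventually
    (gt_mem_nhds (show (0 : ℝ) < δ * κ / 8 by positivity))
  have e2 := (t2.comp tendsto_natCast_atTop_atTop).eventually
    (gt_mem_nhds (show (0 : ℝ) < δ / 32 by positivity))
  obtain ⟨D1, hD1⟩ := eventually_atTop.1 (e1.and e2)
  obtain ⟨D2, -, hD2⟩ := g_large hκ 2
  refine ⟨max (max D1 D2) 3, le_max_right _ _, ?_⟩
  intro D hD q hq
  obtain ⟨b1, b2⟩ := hD1 D (((le_max_left _ _).trans (le_max_left _ _)).trans hD)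
  have b3 := hD2 D (((le_max_right _ _).trans (le_max_left _ _)).trans hD)
  simp only [Function.comp] at b1 b2
  have hD3 : (3 : ℝ) ≤ D := by exact_mod_cast (le_max_right _ _).trans hD
  have hD0 : (0 : ℝ) < D := by linarith
  have hlog : 0 < Real.log D := Real.log_pos (by linarith)
  have hq2 : (2 : ℝ) < q := b3.trans_le hq
  refine ⟨⌈(D : ℝ) ^ (3 / 4 : ℝ)⌉₊, ?_⟩
  set s : ℕ := ⌈(D : ℝ) ^ (3 / 4 : ℝ)⌉₊ with hs
  have hp0 : 0 < (D : ℝ) ^ (3 / 4 : ℝ) := Real.rpow_pos_of_pos hD0 _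
  have hp1 : 1 ≤ (D : ℝ) ^ (3 / 4 : ℝ) := Real.one_le_rpow (by linarith) (by norm_num)
  have hs1 : (D : ℝ) ^ (3 / 4 : ℝ) ≤ s := Nat.le_ceil _
  have hs2 : (s : ℝ) < (D : ℝ) ^ (3 / 4 : ℝ) + 1 := Nat.ceil_lt_add_one hp0.le
  unfold theta
  have p1 : ((s : ℝ) + 2) / (2 * ((q : ℝ) - 1)) ≤ δ / 2 := by
    have h1 : (s : ℝ) + 2 ≤ 4 * (D : ℝ) ^ (3 / 4 : ℝ) := by linarith
    have h2 : κ * (D / Real.log D) ≤ 2 * ((q : ℝ) - 1) := by linarith
    have h3 : 0 < κ * (D / Real.log D) := by positivity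
    calc ((s : ℝ) + 2) / (2 * ((q : ℝ) - 1)) ≤
          (4 * (D : ℝ) ^ (3 / 4 : ℝ)) / (κ * (D / Real.log D)) :=
          div_le_div₀ (by positivity) h1 h3 h2
      _ = 4 / κ * (Real.log D / (D : ℝ) ^ (1 / 4 : ℝ)) := by
          have h4 : (D : ℝ) = (D : ℝ) ^ (3 / 4 : ℝ) * (D : ℝ) ^ (1 / 4 : ℝ) := by
            rw [← Real.rpow_add hD0]
            norm_num
          have h5 : 0 < (D : ℝ) ^ (1 / 4 : ℝ) := Real.rpow_pos_of_pos hD0 _
          have h6 : (D : ℝ) / Real.log D =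
              (D : ℝ) ^ (3 / 4 : ℝ) * (D : ℝ) ^ (1 / 4 : ℝ) / Real.log D := by
            rw [← h4]
          rw [h6]
          field_simp
      _ ≤ 4 / κ * (δ * κ / 8) := mul_le_mul_of_nonneg_left b1.le (by positivity)
      _ = δ / 2 := by field_simp; norm_num
  have p2 : D * Real.log D * Real.exp (-(s : ℝ) ^ 2 / (2 * D)) ≤ δ / 2 := by
    have h1 : Real.log D ≤ D := (Real.log_le_sub_one_of_pos hD0).trans (by linarith)
    have h2 : (D : ℝ) * Real.sqrt D ≤ (s : ℝ) ^ 2 := by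
      have h3 : ((D : ℝ) ^ (3 / 4 : ℝ)) ^ 2 = D * Real.sqrt D := by
        rw [← Real.rpow_natCast, ← Real.rpow_mul hD0.le, Real.sqrt_eq_rpow]
        nth_rewrite 2 [← Real.rpow_one (D : ℝ)]
        rw [← Real.rpow_add hD0]
        norm_num
      rw [← h3]
      exact pow_le_pow_left₀ hp0.le hs1 2
    have h3 : -(s : ℝ) ^ 2 / (2 * D) ≤ -(Real.sqrt D / 2) := by
      rw [neg_div, neg_le_neg_iff, le_div_iff₀ (by linarith)]
      linarith
    have h4 : (D : ℝ) * D = 16 * (Real.sqrt D / 2) ^ 4 := by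
      have h5 : (Real.sqrt D) ^ 4 = D * D := by
        rw [show (Real.sqrt D) ^ 4 = (Real.sqrt D * Real.sqrt D) * (Real.sqrt D * Real.sqrt D) by
          ring, Real.mul_self_sqrt hD0.le]
      rw [div_pow, h5]
      ring
    calc D * Real.log D * Real.exp (-(s : ℝ) ^ 2 / (2 * D))
        ≤ D * D * Real.exp (-(Real.sqrt D / 2)) := by
          refine mul_le_mul (mul_le_mul_of_nonneg_left h1 hD0.le) (Real.exp_le_exp.2 h3)
            (Real.exp_pos _).le (by positivity)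
      _ = 16 * ((Real.sqrt D / 2) ^ 4 * Real.exp (-(Real.sqrt D / 2))) := by
          rw [h4]; ring
      _ ≤ 16 * (δ / 32) := mul_le_mul_of_nonneg_left b2.le (by norm_num)
      _ = δ / 2 := by ring
  linarith

/-- From rates for each `η` to one function. -/
theorem exists_rate (P : ℕ → ℝ → Prop) (h1 : ∀ Δ, P Δ 1)
    (h : ∀ η : ℝ, 0 < η → η < 1 → ∃ Δ0 : ℕ, ∀ Δ, Δ0 ≤ Δ → P Δ η) :
    ∃ f : ℕ → ℝ, Tendsto f atTop (𝓝 0) ∧ ∀ Δ, P Δ (f Δ) := by
  classical
  have h2 : ∀ k : ℕ, ∃ Δ0 : ℕ, ∀ Δ, Δ0 ≤ Δ → P Δ (1 / ((k : ℝ) + 1)) := by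
    intro k
    rcases Nat.eq_zero_or_pos k with rfl | hk
    · refine ⟨0, fun Δ _ => ?_⟩
      have := h1 Δ
      norm_num
      exact this
    · have hk' : (0 : ℝ) < k := by exact_mod_cast hk
      refine h _ (by positivity) ?_
      rw [div_lt_one (by linarith)]
      linarith
  choose T hT using h2
  let k : ℕ → ℕ := fun Δ => Nat.findGreatest (fun k => k = 0 ∨ T k ≤ Δ) Δ
  have hk : ∀ Δ, k Δ = 0 ∨ T (k Δ) ≤ Δ := by
    intro Δ
    exact Nat.findGreatest_spec (P := fun k => k = 0 ∨ T k ≤ Δ) (m := 0) (Nat.zero_le _)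
      (Or.inl rfl)
  refine ⟨fun Δ => 1 / ((k Δ : ℝ) + 1), ?_, ?_⟩
  · have h3 : Tendsto k atTop atTop := by
      rw [tendsto_atTop]
      intro b
      filter_upwards [eventually_ge_atTop (max b (T b))] with Δ hΔ
      exact Nat.le_findGreatest ((le_max_left _ _).trans hΔ) (Or.inr ((le_max_right _ _).trans hΔ))
    exact tendsto_one_div_add_atTop_nhds_zero_nat.comp h3
  · intro Δ
    rcases hk Δ with h0 | h0
    · dsimp only
      rw [h0]
      have := h1 Δ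
      norm_num
      exact this
    · exact hT _ _ h0

end Pool.Agent.Q220.CE
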