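import Mathlib
import Pool.Agent.Q220.CE.Asym

set_option autoImplicit false

/-! The transfer theorems. -/

namespace Pool.Agent.Q220.CE

open Filter Topology

theorem cnt_empty {V : Type} [IsEmpty V] (G : SimpleGraph V) (q : ℕ) : cnt G q = 1 := by
  unfold cnt
  have : Unique {f : V → Fin q // Proper G f} :=
    { default := ⟨fun v => isEmptyElim v, fun u => isEmptyElim u⟩
      uniq := fun f => Subtype.ext (funext fun v => isEmptyElim v) }
  exact Nat.card_unique

theorem log_one_sub_neg {q : ℕ} (hq : 2 ≤ q) : 0 < 1 - 1 / (q : ℝ) ∧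
    Real.log (1 - 1 / (q : ℝ)) ≤ - (1 / (q : ℝ)) := by
  have hq' : (2 : ℝ) ≤ q := by exact_mod_cast hq
  have hone : 0 < 1 - 1 / (q : ℝ) := by
    rw [sub_pos, div_lt_one (by linarith)]; linarith
  refine ⟨hone, ?_⟩
  have := Real.log_le_sub_one_of_pos hone
  linarith

/-- The bound with the number of edges, in exponential form. -/
def EB {V : Type} [Fintype V] (G : SimpleGraph V) (q : ℕ) (a : ℝ) : Prop :=
  Real.exp (Fintype.card V * Real.log a + half G * Real.log (1 - 1 / (q : ℝ))) ≤ (cnt G q : ℝ)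

theorem eb_iff {V : Type} [Fintype V] (G : SimpleGraph V) [DecidableRel G.Adj] {q : ℕ}
    (hq : 2 ≤ q) {a : ℝ} (ha : 0 < a) :
    EB G q a ↔ (1 - 1 / (q : ℝ)) ^ G.edgeFinset.card * a ^ Fintype.card V ≤
      (Nat.card (G.Coloring (Fin q)) : ℝ) := by
  unfold EB
  rw [half_eq G, cnt_eq, Real.exp_add, Real.exp_nat_mul, Real.exp_nat_mul, Real.exp_log ha,
    Real.exp_log (log_one_sub_neg hq).1, mul_comm]

theorem transfer_reg {m D q : ℕ} (s : ℕ) (hm : 3 ≤ m) (hq : 2 ≤ q) (hD : 1 ≤ D) {a : ℝ}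
    (ha : 0 < a)
    (h : ∀ (W : Type) [Fintype W] [Nonempty W] (H : SimpleGraph W), H.CliqueFree m →
      (∀ w, (H.neighborSet w).ncard = D) → EB H q a)
    {V : Type} [Fintype V] (G : SimpleGraph V) (hG : G.CliqueFree m)
    (hd : ∀ v, (G.neighborSet v).ncard ≤ D) : EB G q (a * Real.exp (- theta D s q)) := by
  have hreg : Reg m D q (Real.log a + D / 2 * Real.log (1 - 1 / (q : ℝ))) := by
    intro W _ H hH hdeg
    rcases isEmpty_or_nonempty W with hW | hW
    · rw [cnt_empty, Fintype.card_eq_zero]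
      simp
    · refine le_trans (le_of_eq ?_) (h W H hH hdeg)
      congr 1
      have : half H = Fintype.card W * D / 2 := by
        unfold half
        simp only [hdeg, Finset.sum_const, Finset.card_univ, nsmul_eq_mul]
      rw [this]
      ring
  have hlow := low_of_reg hm hreg
  have hc : 0 < (cnt G q : ℝ) := lt_of_lt_of_le (Real.exp_pos _) (hlow V G hG hd)
  have h1 := core (s := s) hm hq hD hlow G hG hd
  unfold EB
  rw [← Real.exp_log hc]
  apply Real.exp_le_exp.2
  refine le_trans (le_of_eq ?_) h1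
  rw [Real.log_mul ha.ne' (Real.exp_pos _).ne', Real.log_exp]
  ring

theorem transfer_col {m D q : ℕ} (s : ℕ) (hm : 3 ≤ m) (hq : 2 ≤ q) (hD : 1 ≤ D)
    (h : ∀ (W : Type) [Fintype W] (H : SimpleGraph W), H.CliqueFree m →
      (∀ w, (H.neighborSet w).ncard ≤ D) → H.Colorable q)
    {V : Type} [Fintype V] (G : SimpleGraph V) (hG : G.CliqueFree m)
    (hd : ∀ v, (G.neighborSet v).ncard ≤ D) :
    Real.exp (((D : ℝ) / (2 * q) - theta D s q) * Fintype.card V +
      half G * Real.log (1 - 1 / (q : ℝ))) ≤ (cnt G q : ℝ) := by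
  have hlow : Low m D q 0 := by
    intro W _ H hH hdeg
    rw [zero_mul, Real.exp_zero]
    obtain ⟨C⟩ := h W H hH hdeg
    have h1 : 0 < cnt H q := by
      rw [cnt_eq]
      have : Nonempty (H.Coloring (Fin q)) := ⟨C⟩
      have : Finite (H.Coloring (Fin q)) := inferInstance
      exact Nat.card_pos
    exact_mod_cast h1
  have hc : 0 < (cnt G q : ℝ) := lt_of_lt_of_le (Real.exp_pos _) (hlow V G hG hd)
  have h1 := core (s := s) hm hq hD hlow G hG hd
  rw [← Real.exp_log hc]
  apply Real.exp_le_exp.2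
  refine le_trans ?_ h1
  have h2 := (log_one_sub_neg hq).2
  have h3 : 0 ≤ (Fintype.card V : ℝ) * D / 2 := by positivity
  have hq' : (0 : ℝ) < q := by
    have : (2 : ℝ) ≤ q := by exact_mod_cast hq
    linarith
  have h4 : (Fintype.card V : ℝ) * D / 2 * (1 / q) = (D : ℝ) / (2 * q) * Fintype.card V := by
    field_simp
  nlinarith [mul_le_mul_of_nonneg_left h2 h3]

end Pool.Agent.Q220.CE
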