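import Mathlib
import Pool.Agent.Q220.CE.Main

set_option autoImplicit false

/-! Counting on the logarithmic scale from colourability. -/

namespace Pool.Agent.Q220.CE

open Filter Topology

/-- `x / log x` is monotone for `x ≥ 3`. -/
theorem div_log_mono {x y : ℝ} (hx : 3 ≤ x) (hxy : x ≤ y) : x / Real.log x ≤ y / Real.log y := by
  have he : Real.exp 1 ≤ 3 := by
    have := Real.exp_one_lt_d9
    linarith
  have h := Real.log_div_self_antitoneOn (show Real.exp 1 ≤ x by linarith)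
    (show Real.exp 1 ≤ y by linarith) hxy
  have hlx : 0 < Real.log x := Real.log_pos (by linarith)
  have hly : 0 < Real.log y := Real.log_pos (by linarith)
  have h' : Real.log y / y ≤ Real.log x / x := h
  rw [div_le_div_iff₀ (by linarith) (by linarith)] at h'
  rw [div_le_div_iff₀ hlx hly]
  linarith

/-- The colourability hypothesis for maximum degree exactly `Δ` gives it for all graphs of maximum
degree at most `D`. -/
theorem col_le {m : ℕ} {κ : ℝ} (hκ : 0 < κ)
    (h : ∃ Δ0 : ℕ, ∀ Δ : ℕ, Δ0 ≤ Δ → ∀ (V : Type) [Fintype V] (G : SimpleGraph V)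
      [DecidableRel G.Adj], G.CliqueFree m → G.maxDegree = Δ →
        ∀ q : ℕ, κ * ((Δ : ℝ) / Real.log Δ) ≤ q → G.Colorable q) :
    ∃ D0 : ℕ, ∀ D : ℕ, D0 ≤ D → ∀ (V : Type) [Fintype V] (G : SimpleGraph V),
      G.CliqueFree m → (∀ v, (G.neighborSet v).ncard ≤ D) →
        ∀ q : ℕ, κ * ((D : ℝ) / Real.log D) ≤ q → G.Colorable q := by
  classical
  obtain ⟨Δ0, h0⟩ := h
  obtain ⟨D1, hD1, h1⟩ := g_large hκ ((Δ0 : ℝ) + 3)
  refine ⟨D1, ?_⟩
  intro D hD V _ G hG hdeg q hq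
  have hmax : G.maxDegree ≤ D := by
    apply SimpleGraph.maxDegree_le_of_forall_degree_le
    intro v
    rw [← neighborSet_ncard]
    exact hdeg v
  by_cases hc : max Δ0 3 ≤ G.maxDegree
  · refine h0 G.maxDegree ((le_max_left _ _).trans hc) V G hG rfl q ?_
    refine le_trans (mul_le_mul_of_nonneg_left ?_ hκ.le) hq
    apply div_log_mono
    · exact_mod_cast (le_max_right _ _).trans hc
    · exact_mod_cast hmax
  · have h2 := greedy G (d := G.maxDegree) (fun v => by
      rw [neighborSet_ncard]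
      exact G.degree_le_maxDegree v)
    refine h2.mono ?_
    have h3 := h1 D hD
    have h4 : ((Δ0 : ℝ) + 3) < q := h3.trans_le hq
    have h5 : Δ0 + 3 < q := by exact_mod_cast h4
    have : G.maxDegree < max Δ0 3 := not_le.1 hc
    rcases le_total Δ0 3 with h6 | h6
    · rw [max_eq_right h6] at this; omega
    · rw [max_eq_left h6] at this; omega

/-- Counting on the logarithmic scale. -/
theorem count_of_col {m : ℕ} (hm : 3 ≤ m) {κ ε : ℝ} (hκ : 0 < κ) (hε : 0 < ε)
    (h : ∀ δ : ℝ, 0 < δ → ∃ D0 : ℕ, ∀ D : ℕ, D0 ≤ D → ∀ (V : Type) [Fintype V] (G : SimpleGraph V),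
      G.CliqueFree m → (∀ v, (G.neighborSet v).ncard ≤ D) →
        ∀ q : ℕ, (κ + δ) * ((D : ℝ) / Real.log D) ≤ q → G.Colorable q) :
    ∃ Δ0 : ℕ, ∀ Δ : ℕ, Δ0 ≤ Δ → ∀ (V : Type) [Fintype V] (G : SimpleGraph V) [DecidableRel G.Adj],
      G.CliqueFree m → G.maxDegree ≤ Δ → ∀ q : ℕ, (κ + ε) * ((Δ : ℝ) / Real.log Δ) ≤ q →
        (1 - 1 / (q : ℝ)) ^ G.edgeFinset.card *
          (q : ℝ) ^ ((1 / (2 * κ) - ε) * (Fintype.card V : ℝ)) ≤
            (Nat.card (G.Coloring (Fin q)) : ℝ) := by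
  -- choice of `κ'`
  set δ : ℝ := min ε (ε * κ ^ 2) with hδ
  have hδ0 : 0 < δ := lt_min hε (by positivity)
  have hδ1 : δ ≤ ε := min_le_left _ _
  have hδ2 : δ ≤ ε * κ ^ 2 := min_le_right _ _
  set κ' : ℝ := κ + δ with hκ'
  have hκ'0 : 0 < κ' := by linarith
  have hinv : 1 / (2 * κ) - ε / 2 ≤ 1 / (2 * κ') := by
    have h1 : 1 / (2 * κ) - 1 / (2 * κ') = δ / (2 * κ * κ') := by
      rw [hκ']
      field_simp
      ring
    have h2 : δ / (2 * κ * κ') ≤ ε / 2 := by
      rw [div_le_div_iff₀ (by positivity) (by norm_num)]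
      nlinarith [mul_pos hε (mul_pos hκ hδ0)]
    linarith
  obtain ⟨D1, k1⟩ := h δ hδ0
  obtain ⟨D2, hD2, k2⟩ := theta_small hκ'0 (show (0 : ℝ) < 1 by norm_num)
  obtain ⟨D3, hD3, k3⟩ := select hκ'0
  obtain ⟨D4, hD4, k4⟩ := g_large hκ'0 2
  -- logarithm conditions
  obtain ⟨D5, hD5, k5⟩ := g_large hκ'0 (Real.exp ((1 + 1 / κ') / (ε / 2)))
  obtain ⟨D6, hD6⟩ := exists_nat_gt (Real.exp (2 * κ'))
  refine ⟨max (max D1 D2) (max (max D3 D4) (max D5 D6)), ?_⟩
  intro Δ hΔ V _ G _ hG hmax q hq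
  have hΔ3 : 3 ≤ Δ := by omega
  have hΔ3' : (3 : ℝ) ≤ Δ := by exact_mod_cast hΔ3
  have hlogΔ : 0 < Real.log Δ := Real.log_pos (by linarith)
  have hq' : κ' * ((Δ : ℝ) / Real.log Δ) ≤ q := by
    refine le_trans (mul_le_mul_of_nonneg_right ?_ (by positivity)) hq
    linarith
  obtain ⟨D, hΔD, j1, -, j2⟩ := k3 Δ (by omega) q hq'
  have e1 : D1 ≤ D := by omega
  have e2 : D2 ≤ D := by omega
  have e4 : D4 ≤ D := by omega
  have e5 : D5 ≤ D := by omega
  have e6 : D6 ≤ D := by omega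
  have hD3' : (3 : ℝ) ≤ D := by exact_mod_cast hΔ3.trans hΔD
  have hD0 : (0 : ℝ) < D := by linarith
  have hq2 : (2 : ℝ) < q := (k4 D e4).trans_le j1
  have hq2' : 2 ≤ q := by
    have : 2 < q := by exact_mod_cast hq2
    omega
  have hq0 : (0 : ℝ) < q := by linarith
  obtain ⟨s, hs⟩ := k2 D e2 q j1
  have hlogD : 2 * κ' ≤ Real.log D := by
    rw [Real.le_log_iff_exp_le hD0]
    have : (D6 : ℝ) ≤ D := by exact_mod_cast e6
    linarith
  have hlogD0 : 0 < Real.log D := by linarith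
  have key := transfer_col (D := D) s hm hq2' (by omega)
    (fun W (_ : Fintype W) (H : SimpleGraph W) hH hd => k1 D e1 W H hH hd q j1) G hG (by
      intro v
      rw [neighborSet_ncard]
      have := G.degree_le_maxDegree v
      omega)
  have hcard : (cnt G q : ℝ) = (Nat.card (G.Coloring (Fin q)) : ℝ) := by rw [cnt_eq]
  rw [hcard, half_eq G] at key
  refine le_trans ?_ key
  have hone := (log_one_sub_neg hq2').1
  have hlogq0 : 0 < Real.log q := Real.log_pos (by linarith)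
  -- rewrite the left side
  rw [Real.exp_add, Real.exp_nat_mul, Real.exp_log hone, mul_comm ((1 - 1 / (q : ℝ)) ^ _)]
  refine mul_le_mul_of_nonneg_right ?_ (pow_nonneg hone.le _)
  rw [Real.rpow_def_of_pos hq0]
  apply Real.exp_le_exp.2
  rw [← mul_assoc]
  refine mul_le_mul_of_nonneg_right ?_ (Nat.cast_nonneg _)
  -- `log q ≤ log D`
  have hqD : (q : ℝ) ≤ D := by
    refine j2.le.trans ?_
    rw [mul_div_assoc', div_le_iff₀ hlogD0]
    nlinarith
  have hlogqD : Real.log q ≤ Real.log D := Real.log_le_log hq0 hqD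
  -- `D / q ≥ log D / κ' * D / (D + 1)`
  have hDq : Real.log D / κ' - 2 / κ' ≤ (D : ℝ) / q := by
    have h1 : (q : ℝ) * Real.log D ≤ κ' * (D + 1) := by
      have := j2.le
      rw [mul_div_assoc', le_div_iff₀ hlogD0] at this
      exact this
    have h2 : Real.log D ≤ D + 1 := by
      have := Real.log_le_sub_one_of_pos hD0
      linarith
    have h3 : Real.log D / κ' - 2 / κ' = (Real.log D - 2) / κ' := by ring
    rw [h3, div_le_div_iff₀ hκ'0 hq0]
    nlinarith
  have hlarge : (1 + 1 / κ') ≤ ε / 2 * Real.log q := by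
    have h1 := (k5 D e5).trans_le j1
    have h2 : (1 + 1 / κ') / (ε / 2) ≤ Real.log q := by
      rw [Real.le_log_iff_exp_le hq0]
      exact h1.le
    rw [div_le_iff₀ (by linarith)] at h2
    linarith
  have h7 : (D : ℝ) / (2 * q) = (D / q) / 2 := by
    field_simp
  have h8 : Real.log q * (1 / (2 * κ) - ε) ≤ Real.log q * (1 / (2 * κ') - ε / 2) :=
    mul_le_mul_of_nonneg_left (by linarith) hlogq0.le
  have h9 : Real.log q * (1 / (2 * κ')) ≤ Real.log D / κ' / 2 := by
    rw [mul_one_div, div_div, mul_comm κ' 2]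
    exact div_le_div_of_nonneg_right hlogqD (by positivity)
  have h10 : 2 / κ' / 2 = 1 / κ' := by ring
  rw [h7]
  linarith [h8, h9, hDq, hlarge, hs, h10]

/-- Counting gives colourability. -/
theorem col_of_count {V : Type} [Fintype V] (G : SimpleGraph V) [DecidableRel G.Adj] {q : ℕ}
    (hq : 2 ≤ q) {e : ℝ}
    (h : (1 - 1 / (q : ℝ)) ^ G.edgeFinset.card * (q : ℝ) ^ e ≤
      (Nat.card (G.Coloring (Fin q)) : ℝ)) : G.Colorable q := by
  have h1 := (log_one_sub_neg hq).1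
  have hq0 : (0 : ℝ) < q := by
    have : (2 : ℝ) ≤ q := by exact_mod_cast hq
    linarith
  have h2 : (0 : ℝ) < Nat.card (G.Coloring (Fin q)) :=
    lt_of_lt_of_le (mul_pos (pow_pos h1 _) (Real.rpow_pos_of_pos hq0 _)) h
  have h3 : 0 < Nat.card (G.Coloring (Fin q)) := by exact_mod_cast h2
  exact (Nat.card_pos_iff.1 h3).1

end Pool.Agent.Q220.CE
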